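import Mathlib
import Pool.Agent.KS6_67.Sat.Win

set_option autoImplicit false

namespace Pool.Agent.KS6_56.Snark

open Pool.Agent.KS6_67.Sat Finset

/-- Blobs in cyclic order after the edge `e`: blob `j < M` is `{v | ix v = j}`, its size is a
multiple of `d` and at least `4 d`; `Dr j` and `Dl j` are its doors to the blobs `j + 1` and
`j - 1`.  Every window except window `0` (which is `e`) lies in one blob or in the two doors
between two consecutive blobs. -/
theorem arrD {n d m M : ℕ} (hd : 1 ≤ d) (hn : n = m * d) (hM : 2 ≤ M) (hkn : d + 1 ≤ n)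
    (ix : Fin n → ℕ) (hix : ∀ v, ix v < M)
    (hVd : ∀ j < M, d ∣ (univ.filter (fun v => ix v = j)).card)
    (hVs : ∀ j < M, 4 * d ≤ (univ.filter (fun v => ix v = j)).card)
    (e : Finset (Fin n)) (he : e.card = d + 1) (a b : Fin n) (hae : a ∈ e) (hbe : b ∈ e)
    (ha : ix a = M - 1) (hb : ix b = 0)
    (Dr Dl : ℕ → Finset (Fin n))
    (hDr : ∀ j, j + 1 < M → (∀ v ∈ Dr j, ix v = j) ∧ (Dr j).card = d)
    (hDl : ∀ j, j + 1 < M → (∀ v ∈ Dl (j + 1), ix v = j + 1) ∧ (Dl (j + 1)).card = d)
    (hdis : ∀ j, j + 2 < M → Disjoint (Dl (j + 1)) (Dr (j + 1)))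
    (hbD : b ∉ Dr 0) (haD : a ∉ Dl (M - 1)) :
    ∃ σ : Equiv.Perm (Fin n), win n (d + 1) d σ 0 = e ∧
      ∀ w, 1 ≤ w → w < m →
        (∃ j < M, ∀ v ∈ win n (d + 1) d σ w, ix v = j) ∨
        (∃ j, j + 1 < M ∧ ∀ v ∈ win n (d + 1) d σ w, v ∈ Dr j ∨ v ∈ Dl (j + 1)) := by
  classical
  obtain ⟨h, hh⟩ : ∃ h : ℕ → ℕ, h = fun j => (e.filter (fun v => ix v < j)).card := ⟨_, rfl⟩
  obtain ⟨S, hS⟩ : ∃ S : ℕ → ℕ, S = fun j => ((univ \ e).filter (fun v => ix v < j)).card :=
    ⟨_, rfl⟩
  obtain ⟨X, hX⟩ : ∃ X : ℕ → ℕ, X = fun j => d + 1 + S j := ⟨_, rfl⟩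
  -- basic facts
  have hab : a ≠ b := by
    intro h1
    rw [h1, hb] at ha
    omega
  have hsplit : ∀ (s : Finset (Fin n)) (j : ℕ), (s.filter (fun v => ix v < j + 1)).card =
      (s.filter (fun v => ix v < j)).card + (s.filter (fun v => ix v = j)).card := by
    intro s j
    rw [← card_union_of_disjoint]
    · congr 1
      ext v
      simp only [mem_filter, mem_union]
      constructor
      · rintro ⟨h1, h2⟩
        rcases Nat.lt_or_ge (ix v) j with h3 | h3
        · exact Or.inl ⟨h1, h3⟩
        · exact Or.inr ⟨h1, by omega⟩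
      · rintro (⟨h1, h2⟩ | ⟨h1, h2⟩)
        · exact ⟨h1, by omega⟩
        · exact ⟨h1, by omega⟩
    · rw [Finset.disjoint_left]
      intro v h1 h2
      rw [mem_filter] at h1 h2
      omega
  have h0 : h 0 = 0 := by simp [hh]
  have hMM : h M = d + 1 := by
    have : e.filter (fun v => ix v < M) = e := by
      rw [filter_true_of_mem]; intro v _; exact hix v
    simp only [hh, this, he]
  have hstep : ∀ j, h (j + 1) = h j + (e.filter (fun v => ix v = j)).card := by
    intro j; simp only [hh]; exact hsplit e j
  have hmono : Monotone h := monotone_nat_of_le_succ (fun j => by rw [hstep]; omega)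
  have h1 : ∀ j, 1 ≤ j → 1 ≤ h j := by
    intro j hj
    simp only [hh]
    rw [Nat.one_le_iff_ne_zero, Finset.card_ne_zero]
    exact ⟨b, mem_filter.2 ⟨hbe, by omega⟩⟩
  have hd1 : ∀ j, j < M → h j ≤ d := by
    intro j hj
    simp only [hh]
    have : e.filter (fun v => ix v < j) ⊆ e.erase a := by
      intro v hv
      rw [mem_filter] at hv
      rw [mem_erase]
      refine ⟨?_, hv.1⟩
      rintro rfl
      omega
    have h2 := card_le_card this
    rw [card_erase_of_mem hae, he] at h2
    omega
  have hS0 : S 0 = 0 := by simp [hS]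
  have hSM : S M = n - (d + 1) := by
    have : (univ \ e).filter (fun v => ix v < M) = univ \ e := by
      rw [filter_true_of_mem]; intro v _; exact hix v
    simp only [hS, this]
    rw [card_sdiff_of_subset (subset_univ _), card_univ, Fintype.card_fin, he]
  have hSstep : ∀ j, S (j + 1) = S j + ((univ \ e).filter (fun v => ix v = j)).card := by
    intro j; simp only [hS]; exact hsplit (univ \ e) j
  have hcardj : ∀ j, ((univ \ e).filter (fun v => ix v = j)).card +
      (e.filter (fun v => ix v = j)).card = (univ.filter (fun v => ix v = j)).card := by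
    intro j
    rw [← card_union_of_disjoint]
    · congr 1
      ext v
      simp only [mem_filter, mem_union, mem_sdiff, mem_univ, true_and]
      tauto
    · rw [Finset.disjoint_left]
      intro v h1 h2
      rw [mem_filter] at h1 h2
      exact (mem_sdiff.1 h1.1).2 h2.1
  have hT : ∀ j, j ≤ M → d ∣ S j + h j := by
    intro j
    induction j with
    | zero => intro _; rw [hS0, h0]; exact dvd_zero _
    | succ j ih =>
      intro hj
      have e1 := hcardj j
      have e2 := hVd j (by omega)
      rw [hSstep, hstep]
      have e3 : S j + ((univ \ e).filter (fun v => ix v = j)).card +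
          (h j + (e.filter (fun v => ix v = j)).card) =
          (S j + h j) + (univ.filter (fun v => ix v = j)).card := by omega
      rw [e3]
      exact Nat.dvd_add (ih (by omega)) e2
  have hXstep : ∀ j, X (j + 1) = X j + ((univ \ e).filter (fun v => ix v = j)).card := by
    intro j; simp only [hX]; rw [hSstep]; omega
  have hXmono : Monotone X := monotone_nat_of_le_succ (fun j => by rw [hXstep]; omega)
  have hX0 : X 0 = d + 1 := by
    have : X 0 = d + 1 + S 0 := by rw [hX]
    omega
  have hXM : X M = n := by
    have : X M = d + 1 + S M := by rw [hX]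
    omega
  have hfit : ∀ j, j < M → X j + h j + (d + 1 - h (j + 1)) ≤ X (j + 1) := by
    intro j hj
    have e1 := hcardj j
    have e2 := hVs j hj
    have e3 := hXstep j
    have e4 := hstep j
    have e5 : h (j + 1) ≤ d + 1 := by rw [← hMM]; exact hmono (by omega)
    omega
  -- the door vertices used
  have hF : ∀ j, ∃ F : Finset (Fin n), j < M → (∀ v ∈ F, v ∉ e ∧ ix v = j) ∧ F.card = h j ∧
      (∀ i, j = i + 1 → F ⊆ Dl j) := by
    intro j
    rcases j with _ | j
    · exact ⟨∅, fun _ => ⟨by simp, by simp [h0], by intro i hi; omega⟩⟩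
    · by_cases hj : j + 1 < M
      · obtain ⟨hD1, hD2⟩ := hDl j hj
        have hle : h (j + 1) ≤ (Dl (j + 1) \ e).card := by
          have e1 : (Dl (j + 1) ∩ e).card + (Dl (j + 1) \ e).card = d := by
            rw [card_inter_add_card_sdiff, hD2]
          have e2 : h (j + 1) + (Dl (j + 1) ∩ e).card ≤ d := by
            have e3 := hstep (j + 1)
            rcases Nat.lt_or_ge (j + 2) M with h2 | h2
            · have e4 := hd1 (j + 2) h2
              have e5 : Dl (j + 1) ∩ e ⊆ e.filter (fun v => ix v = j + 1) := by
                intro v hv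
                rw [mem_inter] at hv
                exact mem_filter.2 ⟨hv.2, hD1 v hv.1⟩
              have e6 := card_le_card e5
              have e7 : h (j + 1 + 1) = h (j + 2) := rfl
              omega
            · have hjM : j + 1 = M - 1 := by omega
              have e5 : Dl (j + 1) ∩ e ⊆ (e.filter (fun v => ix v = j + 1)).erase a := by
                intro v hv
                rw [mem_inter] at hv
                rw [mem_erase]
                refine ⟨?_, mem_filter.2 ⟨hv.2, hD1 v hv.1⟩⟩
                rintro rfl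
                rw [hjM] at hv
                exact haD hv.1
              have e6 := card_le_card e5
              rw [card_erase_of_mem (mem_filter.2 ⟨hae, by omega⟩)] at e6
              have e7 : h (j + 1 + 1) = d + 1 := by
                rw [show j + 1 + 1 = M by omega]; exact hMM
              have e8 : 1 ≤ (e.filter (fun v => ix v = j + 1)).card := by
                rw [Nat.one_le_iff_ne_zero, Finset.card_ne_zero]
                exact ⟨a, mem_filter.2 ⟨hae, by omega⟩⟩
              omega
          omega
        obtain ⟨F, hF1, hF2⟩ := exists_subset_card_eq hle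
        refine ⟨F, fun _ => ⟨?_, hF2, ?_⟩⟩
        · intro v hv
          have := mem_sdiff.1 (hF1 hv)
          exact ⟨this.2, hD1 v this.1⟩
        · intro i _
          exact hF1.trans sdiff_subset
      · exact ⟨∅, fun hc => absurd hc hj⟩
  choose F hF using hF
  have hL : ∀ j, ∃ L : Finset (Fin n), j < M → (∀ v ∈ L, v ∉ e ∧ ix v = j) ∧
      L.card = d + 1 - h (j + 1) ∧ (j + 1 < M → L ⊆ Dr j) := by
    intro j
    by_cases hj : j + 1 < M
    · obtain ⟨hD1, hD2⟩ := hDr j hj
      have hle : d + 1 - h (j + 1) ≤ (Dr j \ e).card := by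
        have e1 : (Dr j ∩ e).card + (Dr j \ e).card = d := by
          rw [card_inter_add_card_sdiff, hD2]
        have e2 : (Dr j ∩ e).card + 1 ≤ h (j + 1) := by
          have e3 := hstep j
          rcases j with _ | j
          · have e5 : Dr 0 ∩ e ⊆ (e.filter (fun v => ix v = 0)).erase b := by
              intro v hv
              rw [mem_inter] at hv
              rw [mem_erase]
              refine ⟨?_, mem_filter.2 ⟨hv.2, hD1 v hv.1⟩⟩
              rintro rfl
              exact hbD hv.1
            have e6 := card_le_card e5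
            rw [card_erase_of_mem (mem_filter.2 ⟨hbe, hb⟩)] at e6
            have e8 : 1 ≤ (e.filter (fun v => ix v = 0)).card := by
              rw [Nat.one_le_iff_ne_zero, Finset.card_ne_zero]
              exact ⟨b, mem_filter.2 ⟨hbe, hb⟩⟩
            omega
          · have e5 : Dr (j + 1) ∩ e ⊆ e.filter (fun v => ix v = j + 1) := by
              intro v hv
              rw [mem_inter] at hv
              exact mem_filter.2 ⟨hv.2, hD1 v hv.1⟩
            have e6 := card_le_card e5
            have e7 := h1 (j + 1) (by omega)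
            omega
        omega
      obtain ⟨L, hL1, hL2⟩ := exists_subset_card_eq hle
      refine ⟨L, fun _ => ⟨?_, hL2, fun _ => hL1.trans sdiff_subset⟩⟩
      intro v hv
      have := mem_sdiff.1 (hL1 hv)
      exact ⟨this.2, hD1 v this.1⟩
    · refine ⟨∅, fun hj' => ⟨by simp, ?_, fun hc => absurd hc hj⟩⟩
      have : j + 1 = M := by omega
      rw [this, hMM]; simp
  choose L hL using hL
  have hFL : ∀ j, j < M → Disjoint (F j) (L j) := by
    intro j hj
    rcases j with _ | j
    · have : F 0 = ∅ := by
        rw [← card_eq_zero, (hF 0 hj).2.1, h0]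
      rw [this]; exact disjoint_empty_left _
    · rcases Nat.lt_or_ge (j + 2) M with h2 | h2
      · exact (hdis j h2).mono ((hF (j + 1) hj).2.2 j rfl) ((hL (j + 1) hj).2.2 h2)
      · have : L (j + 1) = ∅ := by
          rw [← card_eq_zero, (hL (j + 1) hj).2.1, show j + 1 + 1 = M by omega, hMM]; omega
        rw [this]; exact disjoint_empty_right _
  -- demands
  obtain ⟨P, hP⟩ : ∃ P : ℕ × ℕ → Finset ℕ, P = fun i =>
      if i.1 < M then
        (if i.2 = 0 then Ico (X i.1) (X i.1 + h i.1)
         else if i.2 = 1 then Ico (X i.1 + h i.1) (X (i.1 + 1) - (d + 1 - h (i.1 + 1)))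
         else if i.2 = 2 then Ico (X (i.1 + 1) - (d + 1 - h (i.1 + 1))) (X (i.1 + 1))
         else ∅)
      else if i.1 = M then
        (if i.2 = 0 then {0} else if i.2 = 1 then Ico 1 d else if i.2 = 2 then {d} else ∅)
      else ∅ := ⟨_, rfl⟩
  obtain ⟨U, hU⟩ : ∃ U : ℕ × ℕ → Finset (Fin n), U = fun i =>
      if i.1 < M then
        (if i.2 = 0 then F i.1
         else if i.2 = 1 then (((univ \ e).filter (fun v => ix v = i.1)) \ F i.1) \ L i.1
         else if i.2 = 2 then L i.1
         else ∅)
      else if i.1 = M then
        (if i.2 = 0 then {a} else if i.2 = 1 then (e.erase a).erase b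
         else if i.2 = 2 then {b} else ∅)
      else ∅ := ⟨_, rfl⟩
  have hPm : ∀ j c p, p ∈ P (j, c) →
      (j < M ∧ X j ≤ p ∧ p < X (j + 1) ∧
        ((c = 0 ∧ p < X j + h j) ∨
         (c = 1 ∧ X j + h j ≤ p ∧ p < X (j + 1) - (d + 1 - h (j + 1))) ∨
         (c = 2 ∧ X (j + 1) - (d + 1 - h (j + 1)) ≤ p))) ∨
      (j = M ∧ ((c = 0 ∧ p = 0) ∨ (c = 1 ∧ 1 ≤ p ∧ p < d) ∨ (c = 2 ∧ p = d))) := by
    intro j c p hp
    rw [hP] at hp
    simp only at hp
    by_cases hj : j < M
    · have := hfit j hj
      rw [if_pos hj] at hp
      left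
      refine ⟨hj, ?_⟩
      split_ifs at hp with c0 c1 c2
      · rw [mem_Ico] at hp; omega
      · rw [mem_Ico] at hp; omega
      · rw [mem_Ico] at hp; omega
      · simp at hp
    · rw [if_neg hj] at hp
      by_cases hj' : j = M
      · rw [if_pos hj'] at hp
        right
        refine ⟨hj', ?_⟩
        split_ifs at hp with c0 c1 c2
        · rw [mem_singleton] at hp; omega
        · rw [mem_Ico] at hp; omega
        · rw [mem_singleton] at hp; omega
        · simp at hp
      · rw [if_neg hj'] at hp
        simp at hp
  have hUm : ∀ j c v, v ∈ U (j, c) →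
      (j < M ∧ v ∉ e ∧ ix v = j ∧ ((c = 0 ∧ v ∈ F j) ∨ (c = 1 ∧ v ∉ F j ∧ v ∉ L j) ∨
        (c = 2 ∧ v ∈ L j))) ∨
      (j = M ∧ v ∈ e ∧ ((c = 0 ∧ v = a) ∨ (c = 1 ∧ v ≠ a ∧ v ≠ b) ∨ (c = 2 ∧ v = b))) := by
    intro j c v hv
    rw [hU] at hv
    simp only at hv
    by_cases hj : j < M
    · rw [if_pos hj] at hv
      left
      refine ⟨hj, ?_⟩
      split_ifs at hv with c0 c1 c2
      · have := (hF j hj).1 v hv
        exact ⟨this.1, this.2, Or.inl ⟨c0, hv⟩⟩
      · rw [mem_sdiff, mem_sdiff, mem_filter, mem_sdiff] at hv
        exact ⟨hv.1.1.1.2, hv.1.1.2, Or.inr (Or.inl ⟨c1, hv.1.2, hv.2⟩)⟩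
      · have := (hL j hj).1 v hv
        exact ⟨this.1, this.2, Or.inr (Or.inr ⟨c2, hv⟩)⟩
      · simp at hv
    · rw [if_neg hj] at hv
      by_cases hj' : j = M
      · rw [if_pos hj'] at hv
        right
        refine ⟨hj', ?_⟩
        split_ifs at hv with c0 c1 c2
        · rw [mem_singleton] at hv
          exact ⟨hv ▸ hae, Or.inl ⟨c0, hv⟩⟩
        · rw [mem_erase, mem_erase] at hv
          exact ⟨hv.2.2, Or.inr (Or.inl ⟨c1, hv.2.1, hv.1⟩)⟩
        · rw [mem_singleton] at hv
          exact ⟨hv ▸ hbe, Or.inr (Or.inr ⟨c2, hv⟩)⟩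
        · simp at hv
      · rw [if_neg hj'] at hv
        simp at hv
  obtain ⟨σ, hσ⟩ := exists_perm (n := n) (ι := ℕ × ℕ) P U
    (by
      rintro ⟨j, c⟩ ⟨j', c'⟩ p hp hp'
      have q := hPm _ _ _ hp
      have q' := hPm _ _ _ hp'
      have hjj : j = j' := by
        rcases q with ⟨q1, q2, q3, -⟩ | ⟨q1, q2⟩
        · rcases q' with ⟨q1', q2', q3', -⟩ | ⟨q1', q2'⟩
          · rcases Nat.lt_trichotomy j j' with hlt | hlt | hlt
            · have := hXmono (show j + 1 ≤ j' from hlt); omega
            · exact hlt
            · have := hXmono (show j' + 1 ≤ j from hlt); omega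
          · exfalso
            have := hXmono (Nat.zero_le j)
            omega
        · rcases q' with ⟨q1', q2', q3', -⟩ | ⟨q1', q2'⟩
          · exfalso
            have := hXmono (Nat.zero_le j')
            omega
          · omega
      subst hjj
      have hcc : c = c' := by
        rcases q with ⟨q1, q2, q3, q4⟩ | ⟨q1, q2⟩
        · have := hfit j q1
          rcases q' with ⟨q1', q2', q3', q4'⟩ | ⟨q1', q2'⟩
          · omega
          · omega
        · rcases q' with ⟨q1', q2', q3', q4'⟩ | ⟨q1', q2'⟩
          · omega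
          · omega
      rw [hcc])
    (by
      rintro ⟨j, c⟩ ⟨j', c'⟩ v hv hv'
      have q := hUm _ _ _ hv
      have q' := hUm _ _ _ hv'
      rcases q with ⟨q1, q2, q3, q4⟩ | ⟨q1, q2, q3⟩
      · rcases q' with ⟨q1', q2', q3', q4'⟩ | ⟨q1', q2', q3'⟩
        · have hjj : j = j' := by omega
          subst hjj
          have hdisj := hFL j q1
          rw [Finset.disjoint_left] at hdisj
          have := @hdisj v
          have hcc : c = c' := by
            rcases q4 with q4 | q4 | q4 <;> rcases q4' with q4' | q4' | q4' <;>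
              first | omega | (exfalso; tauto)
          rw [hcc]
        · exact absurd q2' q2
      · rcases q' with ⟨q1', q2', q3', q4'⟩ | ⟨q1', q2', q3'⟩
        · exact absurd q2 q2'
        · have hcc : c = c' := by
            rcases q3 with q3 | q3 | q3 <;> rcases q3' with q3' | q3' | q3'
            · omega
            · exact absurd q3.2 q3'.2.1
            · exact absurd (q3.2.symm.trans q3'.2) hab
            · exact absurd q3'.2 q3.2.1
            · omega
            · exact absurd q3'.2 q3.2.2
            · exact absurd (q3'.2.symm.trans q3.2) hab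
            · exact absurd q3.2 q3'.2.2
            · omega
          rw [hcc, q1, q1'])
    (by
      rintro ⟨j, c⟩
      rw [hP, hU]
      simp only
      by_cases hj : j < M
      · rw [if_pos hj, if_pos hj]
        have f1 := (hF j hj).2.1
        have f2 := (hL j hj).2.1
        have f3 := hfit j hj
        split_ifs with c0 c1 c2
        · rw [Nat.card_Ico, f1]; omega
        · rw [Nat.card_Ico]
          have g1 : F j ⊆ (univ \ e).filter (fun v => ix v = j) := by
            intro v hv
            have := (hF j hj).1 v hv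
            rw [mem_filter, mem_sdiff]
            exact ⟨⟨mem_univ _, this.1⟩, this.2⟩
          have g2 : L j ⊆ ((univ \ e).filter (fun v => ix v = j)) \ F j := by
            intro v hv
            have := (hL j hj).1 v hv
            rw [mem_sdiff, mem_filter, mem_sdiff]
            refine ⟨⟨⟨mem_univ _, this.1⟩, this.2⟩, ?_⟩
            intro hvF
            exact Finset.disjoint_left.1 (hFL j hj) hvF hv
          rw [card_sdiff_of_subset g2, card_sdiff_of_subset g1, f1, f2]
          have := hXstep j
          omega
        · rw [Nat.card_Ico, f2]; omega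
        · simp
      · rw [if_neg hj, if_neg hj]
        by_cases hj' : j = M
        · rw [if_pos hj', if_pos hj']
          split_ifs with c0 c1 c2
          · simp
          · rw [Nat.card_Ico, card_erase_of_mem (mem_erase.2 ⟨hab.symm, hbe⟩),
              card_erase_of_mem hae, he]; omega
          · simp
          · simp
        · rw [if_neg hj', if_neg hj']; simp)
  refine ⟨σ, ?_, ?_⟩
  · have hsub : win n (d + 1) d σ 0 ⊆ e := by
      intro v hv
      rw [mem_win] at hv
      obtain ⟨i, hi, hi2⟩ := hv
      rw [zero_mul, zero_add, Nat.mod_eq_of_lt (by omega)] at hi2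
      obtain ⟨c, hc⟩ : ∃ c, ((σ v : Fin n) : ℕ) ∈ P (M, c) := by
        rw [hi2, hP]
        simp only [lt_irrefl, if_false, if_true]
        by_cases c0 : i = 0
        · exact ⟨0, by simp [c0]⟩
        · by_cases c1 : i < d
          · exact ⟨1, by simp; omega⟩
          · exact ⟨2, by simp; omega⟩
      have := hUm _ _ _ (hσ _ v hc)
      rcases this with ⟨q, _⟩ | ⟨_, q, _⟩
      · omega
      · exact q
    exact Finset.eq_of_subset_of_card_le hsub (by rw [card_win σ 0 hkn, he])
  · intro w hw1 hw2
    have hwd : w * d + d ≤ n := by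
      have : (w + 1) * d ≤ m * d := Nat.mul_le_mul_right d (by omega)
      rw [hn]; linarith [this, add_mul w 1 d]
    have hwd1 : d ≤ w * d := Nat.le_mul_of_pos_left d (by omega)
    -- the vertex at a position
    have hin : ∀ (j p : ℕ) (v : Fin n), j < M → X j ≤ p → p < X (j + 1) →
        ((σ v : Fin n) : ℕ) = p → ix v = j := by
      intro j p v hj hp1 hp2 hv
      obtain ⟨c, hc⟩ : ∃ c, ((σ v : Fin n) : ℕ) ∈ P (j, c) := by
        rw [hv, hP]
        simp only [if_pos hj]
        by_cases c0 : p < X j + h j
        · exact ⟨0, by simp; omega⟩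
        · by_cases c1 : p < X (j + 1) - (d + 1 - h (j + 1))
          · exact ⟨1, by simp; omega⟩
          · exact ⟨2, by simp; omega⟩
      rcases hUm _ _ _ (hσ _ v hc) with ⟨_, _, q, _⟩ | ⟨q, _⟩
      · exact q
      · omega
    have hat0 : ∀ v : Fin n, ((σ v : Fin n) : ℕ) = 0 → v = a := by
      intro v hv
      have hc : ((σ v : Fin n) : ℕ) ∈ P (M, 0) := by rw [hv, hP]; simp
      rcases hUm _ _ _ (hσ _ v hc) with ⟨q, _⟩ | ⟨_, _, q⟩
      · omega
      · rcases q with q | q | q
        · exact q.2
        · omega
        · omega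
    have hatd : ∀ v : Fin n, ((σ v : Fin n) : ℕ) = d → v = b := by
      intro v hv
      have hc : ((σ v : Fin n) : ℕ) ∈ P (M, 2) := by rw [hv, hP]; simp
      rcases hUm _ _ _ (hσ _ v hc) with ⟨q, _⟩ | ⟨_, _, q⟩
      · omega
      · rcases q with q | q | q
        · omega
        · omega
        · exact q.2
    obtain ⟨j, hj, hj1, hj2⟩ : ∃ j < M, (j = 0 ∨ X j ≤ w * d) ∧ (j + 1 = M ∨ w * d < X (j + 1)) := by
      have hex : ∃ j, j + 1 = M ∨ w * d < X (j + 1) := ⟨M - 1, Or.inl (by omega)⟩
      have hsp := Nat.find_spec hex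
      have hmin := fun k => Nat.find_min (m := k) hex
      refine ⟨Nat.find hex, ?_, ?_, hsp⟩
      · by_contra hc
        have := hmin (M - 1) (by omega)
        apply this
        left; omega
      · by_cases hz : Nat.find hex = 0
        · exact Or.inl hz
        · right
          have := hmin (Nat.find hex - 1) (by omega)
          push Not at this
          rw [Nat.sub_add_cancel (by omega)] at this
          exact this.2
    by_cases hcr : j + 1 < M ∧ X (j + 1) ≤ w * d + d
    · -- crossing window
      right
      refine ⟨j, hcr.1, ?_⟩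
      have hj2' : w * d < X (j + 1) := by
        rcases hj2 with q | q
        · omega
        · exact q
      have k1 := h1 (j + 1) (by omega)
      have k2 := hd1 (j + 1) hcr.1
      have k3 : d ∣ S (j + 1) + h (j + 1) := hT (j + 1) (by omega)
      obtain ⟨q, hq⟩ := k3
      have k4 : X (j + 1) + h (j + 1) = d + 1 + d * q := by
        simp only [hX]; omega
      have k5 : w * d < d * (q + 1) := by
        have : d * (q + 1) = d * q + d := by ring
        omega
      have k6 : d * (q + 1) < (w + 2) * d := by
        have e1 : d * (q + 1) = d * q + d := by ring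
        have e2 : (w + 2) * d = w * d + 2 * d := by ring
        omega
      have k7 : w < q + 1 := by
        rw [mul_comm w d] at k5
        exact Nat.lt_of_mul_lt_mul_left k5
      have k8 : q + 1 < w + 2 := by
        rw [mul_comm (w + 2) d] at k6
        exact Nat.lt_of_mul_lt_mul_left k6
      have k9 : q = w := by omega
      have k10 : X (j + 1) + h (j + 1) = w * d + d + 1 := by
        rw [k4, k9, mul_comm d w]; omega
      have k11 := hfit (j + 1) hcr.1
      have k12 : X (j + 1 + 1) ≤ n := by rw [← hXM]; exact hXmono (by omega)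
      intro v hv
      rw [mem_win] at hv
      obtain ⟨i, hi, hi2⟩ := hv
      rw [Nat.mod_eq_of_lt (by omega)] at hi2
      by_cases hp : w * d + i < X (j + 1)
      · left
        have hc : ((σ v : Fin n) : ℕ) ∈ P (j, 2) := by
          rw [hi2, hP]
          simp only [if_pos hj]
          simp
          omega
        rcases hUm _ _ _ (hσ _ v hc) with ⟨_, _, _, q'⟩ | ⟨q', _⟩
        · rcases q' with q' | q' | q'
          · omega
          · omega
          · exact (hL j hj).2.2 hcr.1 q'.2
        · omega
      · right
        have hc : ((σ v : Fin n) : ℕ) ∈ P (j + 1, 0) := by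
          rw [hi2, hP]
          simp only [if_pos hcr.1]
          simp
          omega
        rcases hUm _ _ _ (hσ _ v hc) with ⟨_, _, _, q'⟩ | ⟨q', _⟩
        · rcases q' with q' | q' | q'
          · exact (hF (j + 1) hcr.1).2.2 j rfl q'.2
          · omega
          · omega
        · omega
    · -- inner window
      left
      refine ⟨j, hj, ?_⟩
      have hXj1 : X (j + 1) ≤ n := by rw [← hXM]; exact hXmono (by omega)
      have hXj0 : d + 1 ≤ X j := by rw [← hX0]; exact hXmono (by omega)
      intro v hv
      rw [mem_win] at hv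
      obtain ⟨i, hi, hi2⟩ := hv
      by_cases hpn : w * d + i = n
      · rw [hpn, Nat.mod_self] at hi2
        rw [hat0 v hi2, ha]
        by_contra hc
        have : j + 1 < M := by omega
        apply hcr
        exact ⟨this, by omega⟩
      · rw [Nat.mod_eq_of_lt (by omega)] at hi2
        by_cases hpd : w * d + i = d
        · rw [hpd] at hi2
          rw [hatd v hi2, hb]
          rcases hj1 with q | q
          · exact q.symm
          · omega
        · refine hin j (w * d + i) v hj ?_ ?_ hi2
          · rcases hj1 with q | q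
            · rw [q, hX0]; omega
            · omega
          · by_cases q : j + 1 = M
            · rw [q, hXM]; omega
            · have : ¬ X (j + 1) ≤ w * d + d := fun hc => hcr ⟨by omega, hc⟩
              omega

end Pool.Agent.KS6_56.Snark
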