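import Mathlib
import Pool.Agent.KS6_67.Sat.CoreDef

set_option autoImplicit false

namespace Pool.Agent.KS6_56.Snark

open Pool.Agent.KS6_67.Sat

/-- Every element of the list is moved by `sh`, and between consecutive elements `a`, `b` the list
`br a b` is inserted. -/
def expand (sh : ℕ → ℕ) (br : ℕ → ℕ → List ℕ) : List ℕ → List ℕ
  | [] => []
  | [a] => [sh a]
  | a :: b :: l => sh a :: (br a b ++ expand sh br (b :: l))

/-- `a`, `b` are consecutive elements of the list, in this order. -/
def hasPair (a b : ℕ) : List ℕ → Bool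
  | [] => false
  | [_] => false
  | x :: y :: l => (x == a && y == b) || hasPair a b (y :: l)

/-- Sum of a weight over consecutive elements. -/
def wsum (w : ℕ → ℕ → ℕ) : List ℕ → ℕ
  | [] => 0
  | [_] => 0
  | x :: y :: l => w x y + wsum w (y :: l)

/-- A test on all pairs of consecutive elements. -/
def pairsOK (f : ℕ → ℕ → Bool) : List ℕ → Bool
  | [] => true
  | [_] => true
  | x :: y :: l => f x y && pairsOK f (y :: l)

/-- The set of elements as a bit mask. -/
def bits : List ℕ → ℕ
  | [] => 0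
  | a :: l => 2 ^ a ||| bits l

lemma testBit_bits (n : ℕ) : ∀ l : List ℕ, (bits l).testBit n = true → n ∈ l
  | [], h => by simp [bits] at h
  | a :: l, h => by
      simp only [bits, Nat.testBit_or, Bool.or_eq_true, Nat.testBit_two_pow] at h
      rcases h with h | h
      · simp at h; simp [h]
      · exact List.mem_cons_of_mem _ (testBit_bits n l h)

section Expand

variable {sh : ℕ → ℕ} {br : ℕ → ℕ → List ℕ}

lemma expand_cons (a : ℕ) (l : List ℕ) : ∃ r, expand sh br (a :: l) = sh a :: r := by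
  cases l with
  | nil => exact ⟨[], rfl⟩
  | cons b l => exact ⟨_, rfl⟩

lemma expand_snoc : ∀ (l : List ℕ) (a : ℕ), ∃ X, expand sh br (l ++ [a]) = X ++ [sh a]
  | [], a => ⟨[], rfl⟩
  | [x], a => ⟨sh x :: br x a, by simp [expand]⟩
  | x :: y :: l, a => by
      obtain ⟨X, hX⟩ := expand_snoc (y :: l) a
      refine ⟨sh x :: (br x y ++ X), ?_⟩
      simp only [List.cons_append, expand] at hX ⊢
      rw [hX]; simp

lemma expand_snoc2 : ∀ (l : List ℕ) (a b : ℕ),
    expand sh br (l ++ [a, b]) = expand sh br (l ++ [a]) ++ (br a b ++ [sh b])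
  | [], a, b => by simp [expand]
  | [x], a, b => by simp [expand]
  | x :: y :: l, a, b => by
      have h := expand_snoc2 (y :: l) a b
      simp only [List.cons_append, expand] at h ⊢
      rw [h]; simp

lemma isChain_expand {R : ℕ → ℕ → Prop} {f : ℕ → ℕ → Bool}
    (h : ∀ a b, f a b = true → List.IsChain R (sh a :: (br a b ++ [sh b]))) :
    ∀ L, pairsOK f L = true → List.IsChain R (expand sh br L)
  | [], _ => by simp [expand]
  | [a], _ => by simp [expand]
  | a :: b :: l, hL => by
      simp only [pairsOK, Bool.and_eq_true] at hL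
      have h1 := h a b hL.1
      have h2 := isChain_expand h (b :: l) hL.2
      obtain ⟨r, hr⟩ := expand_cons (sh := sh) (br := br) b l
      simp only [expand]
      rw [hr] at h2 ⊢
      have := List.IsChain.append_overlap (l₁ := sh a :: br a b) (l₂ := [sh b]) (l₃ := r)
        (by simpa using h1) (by simpa using h2) (by simp)
      simpa using this

lemma mem_expand_sh {a : ℕ} : ∀ {L : List ℕ}, a ∈ L → sh a ∈ expand sh br L
  | [], h => by simp at h
  | [b], h => by simp at h; simp [expand, h]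
  | b :: c :: l, h => by
      simp only [expand, List.mem_cons, List.mem_append]
      rcases List.mem_cons.1 h with h | h
      · exact Or.inl (by rw [h])
      · exact Or.inr (Or.inr (mem_expand_sh h))

lemma mem_expand_br {a b w : ℕ} (hw : w ∈ br a b) :
    ∀ {L : List ℕ}, hasPair a b L = true → w ∈ expand sh br L
  | [], h => by simp [hasPair] at h
  | [_], h => by simp [hasPair] at h
  | x :: y :: l, h => by
      simp only [hasPair, Bool.or_eq_true, Bool.and_eq_true, beq_iff_eq] at h
      simp only [expand, List.mem_cons, List.mem_append]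
      rcases h with ⟨rfl, rfl⟩ | h
      · exact Or.inr (Or.inl hw)
      · exact Or.inr (Or.inr (mem_expand_br hw h))

lemma length_expand {w : ℕ → ℕ → ℕ} (hw : ∀ a b, (br a b).length = w a b) :
    ∀ L : List ℕ, (expand sh br L).length = L.length + wsum w L
  | [] => by simp [expand, wsum]
  | [a] => by simp [expand, wsum]
  | a :: b :: l => by
      have := length_expand hw (b :: l)
      simp only [expand, wsum, List.length_cons, List.length_append, hw] at this ⊢
      omega

lemma wsum_add (w1 w2 : ℕ → ℕ → ℕ) (c1 c2 : ℕ) :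
    ∀ L : List ℕ, wsum (fun a b => c1 * w1 a b + c2 * w2 a b) L = c1 * wsum w1 L + c2 * wsum w2 L
  | [] => by simp [wsum]
  | [a] => by simp [wsum]
  | a :: b :: l => by
      have := wsum_add w1 w2 c1 c2 (b :: l)
      simp only [wsum] at this ⊢
      rw [this]; ring

end Expand

/-! ### The inserted pieces -/

/-- A strand straight through four blocks. -/
def straight (x : ℕ) : List ℕ := [x, 4 + x, 8 + x, 12 + x]

/-- A strand on track `y` through four blocks which also covers the centres and the track `z`. -/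
def wavy (y z : ℕ) : List ℕ :=
  [y, 3, z, 4 + z, 7, 4 + y, 8 + y, 11, 8 + z, 12 + z, 15, 12 + y]

/-- A strand on track `z` which covers four blocks. -/
def single (z x y : ℕ) : List ℕ :=
  [z, 4 + z, 7, 4 + y, y, 3, x, 4 + x, 8 + x, 12 + x, 15, 12 + y, 8 + y, 11, 8 + z, 12 + z]

/-- The piece inserted on track `x` when the set of crossing tracks has mask `m`. -/
def D (m x : ℕ) : List ℕ :=
  match m, x with
  | 1, 0 => single 0 1 2
  | 2, 1 => single 1 0 2
  | 4, 2 => single 2 0 1
  | 3, 0 => straight 0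
  | 3, 1 => wavy 1 2
  | 5, 0 => straight 0
  | 5, 2 => wavy 2 1
  | 6, 1 => straight 1
  | 6, 2 => wavy 2 0
  | _, _ => []

/-- `n` copies of a piece, each moved by four blocks. -/
def DD (l : List ℕ) : ℕ → List ℕ
  | 0 => []
  | n + 1 => DD l n ++ l.map (· + 16 * n)

/-- Adjacency in an infinite ladder of claws, for numbers below `N`. -/
def lad (N a b : ℕ) : Prop :=
  a < N ∧ b < N ∧ ((a / 4 = b / 4 ∧ ((a % 4 < 3 ∧ b % 4 = 3) ∨ (a % 4 = 3 ∧ b % 4 < 3))) ∨
    (a % 4 < 3 ∧ (b = a + 4 ∨ a = b + 4)))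

instance (N a b : ℕ) : Decidable (lad N a b) := by unfold lad; infer_instance

lemma D_good (m x : ℕ) (h : D m x ≠ []) :
    x < 3 ∧ (∃ l, D m x = x :: l) ∧ List.IsChain (lad 20) (D m x ++ [16 + x]) := by
  unfold D at h ⊢
  split at h
  all_goals first
    | exact absurd rfl h
    | (refine ⟨by decide, ⟨_, rfl⟩, ?_⟩; decide)

lemma DD_length (l : List ℕ) : ∀ n, (DD l n).length = n * l.length
  | 0 => by simp [DD]
  | n + 1 => by simp [DD, DD_length l n]; ring

lemma mem_DD (l : List ℕ) {o : ℕ} (ho : o ∈ l) : ∀ {n k : ℕ}, k < n → o + 16 * k ∈ DD l n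
  | 0, k, h => by omega
  | n + 1, k, h => by
      simp only [DD, List.mem_append, List.mem_map]
      rcases Nat.lt_or_ge k n with h1 | h1
      · exact Or.inl (mem_DD l ho h1)
      · obtain rfl : k = n := by omega
        exact Or.inr ⟨o, ho, rfl⟩

lemma lad_shift {N a b : ℕ} (k : ℕ) (h : lad N a b) : lad (N + 4 * k) (a + 4 * k) (b + 4 * k) := by
  unfold lad at h ⊢; omega

lemma lad_mono {N M a b : ℕ} (hNM : N ≤ M) (h : lad N a b) : lad M a b := by
  unfold lad at h ⊢; omega

lemma DD_head {m x : ℕ} (h : D m x ≠ []) :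
    ∀ n, ∃ r, DD (D m x) n ++ [16 * n + x] = x :: r
  | 0 => ⟨[], by simp [DD]⟩
  | n + 1 => by
      obtain ⟨r, hr⟩ := DD_head h n
      obtain ⟨-, ⟨l, hl⟩, -⟩ := D_good m x h
      refine ⟨r ++ (l.map (· + 16 * n) ++ [16 * (n + 1) + x]), ?_⟩
      rw [← List.cons_append, ← hr, DD]
      have : (D m x).map (· + 16 * n) = (16 * n + x) :: l.map (· + 16 * n) := by
        rw [hl]; simp [add_comm]
      rw [this]; simp

lemma DD_chain {m x : ℕ} (h : D m x ≠ []) :
    ∀ n, List.IsChain (lad (16 * n + 4)) (DD (D m x) n ++ [16 * n + x])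
  | 0 => by simp [DD]
  | n + 1 => by
      obtain ⟨hx, ⟨l, hl⟩, hc⟩ := D_good m x h
      have h1 := (DD_chain h n).imp (fun a b hab => lad_mono (M := 16 * (n + 1) + 4) (by omega) hab)
      have h2 : List.IsChain (lad (16 * (n + 1) + 4))
          ((D m x).map (· + 16 * n) ++ [16 * (n + 1) + x]) := by
        have h3 : List.IsChain (lad (16 * (n + 1) + 4)) ((D m x ++ [16 + x]).map (· + 16 * n)) := by
          rw [List.isChain_map]
          refine hc.imp (fun a b hab => ?_)
          have := lad_shift (4 * n) hab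
          unfold lad at this ⊢
          omega
        rw [List.map_append] at h3
        have h4 : ([16 + x].map (· + 16 * n)) = [16 * (n + 1) + x] := by simp; ring
        rwa [h4] at h3
      have h5 : (D m x).map (· + 16 * n) = (16 * n + x) :: l.map (· + 16 * n) := by
        rw [hl]; simp [add_comm]
      rw [h5] at h2
      have := List.IsChain.append_overlap (l₁ := DD (D m x) n) (l₂ := [16 * n + x])
        (l₃ := l.map (· + 16 * n) ++ [16 * (n + 1) + x]) h1 (by simpa using h2) (by simp)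
      rw [DD, h5]
      simpa using this

/-! ### Bridges at one cut -/

/-- The list inserted between consecutive elements `a`, `b` at the cut between the blocks `p` and
`p + 1` (block `p` has become block `P`), `n` times four blocks. -/
def brg (p P n m a b : ℕ) : List ℕ :=
  if a / 4 = p ∧ b = a + 4 then (DD (D m (a % 4)) n).map (· + 4 * (P + 1))
  else if b / 4 = p ∧ a = b + 4 then ((DD (D m (b % 4)) n).map (· + 4 * (P + 1))).reverse
  else []

/-- The weight of a crossing. -/
def wt (p m a b : ℕ) : ℕ :=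
  if a / 4 = p ∧ b = a + 4 then (D m (a % 4)).length
  else if b / 4 = p ∧ a = b + 4 then (D m (b % 4)).length
  else 0

/-- The crossing (if it is one) is on a track of the mask. -/
def crossOK (p m a b : ℕ) : Bool :=
  if a / 4 = p ∧ b = a + 4 then !(D m (a % 4)).isEmpty
  else if b / 4 = p ∧ a = b + 4 then !(D m (b % 4)).isEmpty
  else true

lemma brg_length (p P n m a b : ℕ) : (brg p P n m a b).length = n * wt p m a b := by
  unfold brg wt
  split_ifs <;> simp [DD_length]

lemma brg_symm (p P n m a b : ℕ) : brg p P n m b a = (brg p P n m a b).reverse := by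
  unfold brg
  by_cases h1 : a / 4 = p ∧ b = a + 4
  · have h2 : ¬ (b / 4 = p ∧ a = b + 4) := by omega
    rw [if_neg h2, if_pos h1, if_pos h1]
  · by_cases h2 : b / 4 = p ∧ a = b + 4
    · rw [if_pos h2, if_neg h1, if_pos h2]; simp
    · rw [if_neg h2, if_neg h1, if_neg h1, if_neg h2]; simp

lemma fadj_step {T a : ℕ} (h1 : a + 4 < 4 * T) (h2 : a % 4 < 3) : fadj T a (a + 4) :=
  Or.inl ⟨by omega, h1, Or.inr (Or.inl ⟨by omega, h2, by omega⟩)⟩

lemma fadj_claw {T a b : ℕ} (h1 : a < 4 * T) (h : a / 4 = b / 4) (ha : a % 4 < 3)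
    (hb : b % 4 = 3) : fadj T a b :=
  Or.inl ⟨h1, by omega, Or.inl ⟨h, ha, hb⟩⟩

lemma fadj_of_lad {N a b T c : ℕ} (h : lad N a b) (hT : N + 4 * c ≤ 4 * T) :
    fadj T (a + 4 * c) (b + 4 * c) := by
  obtain ⟨ha, hb, h⟩ := h
  have a1 : (a + 4 * c) / 4 = a / 4 + c := by omega
  have a2 : (a + 4 * c) % 4 = a % 4 := by omega
  have b1 : (b + 4 * c) / 4 = b / 4 + c := by omega
  have b2 : (b + 4 * c) % 4 = b % 4 := by omega
  rcases h with ⟨h, ⟨h1, h2⟩ | ⟨h1, h2⟩⟩ | ⟨h, rfl | rfl⟩
  · exact fadj_claw (by omega) (by omega) (by omega) (by omega)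
  · exact Or.symm (fadj_claw (by omega) (by omega) (by omega) (by omega))
  · have := fadj_step (T := T) (a := a + 4 * c) (by omega) (by omega)
    rwa [show a + 4 + 4 * c = a + 4 * c + 4 by ring]
  · have := fadj_step (T := T) (a := b + 4 * c) (by omega) (by omega)
    rw [show b + 4 + 4 * c = b + 4 * c + 4 by ring]
    exact Or.symm this

lemma seg_chain {m x : ℕ} (h : D m x ≠ []) {P n T : ℕ} (hT : P + 1 + 4 * n < T) :
    List.IsChain (fadj T) ((4 * P + x) :: ((DD (D m x) n).map (· + 4 * (P + 1)) ++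
      [4 * (P + 1) + 16 * n + x])) := by
  obtain ⟨hx, -, -⟩ := D_good m x h
  have h1 : List.IsChain (fadj T) ((DD (D m x) n ++ [16 * n + x]).map (· + 4 * (P + 1))) := by
    rw [List.isChain_map]
    exact (DD_chain h n).imp (fun a b hab => fadj_of_lad hab (by omega))
  obtain ⟨r, hr⟩ := DD_head h n
  have h2 : (DD (D m x) n).map (· + 4 * (P + 1)) ++ [4 * (P + 1) + 16 * n + x]
      = (DD (D m x) n ++ [16 * n + x]).map (· + 4 * (P + 1)) := by
    rw [List.map_append]; simp; ring
  rw [h2]
  rw [hr] at h1 ⊢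
  simp only [List.map_cons] at h1 ⊢
  rw [List.isChain_cons_cons]
  refine ⟨?_, h1⟩
  have := fadj_step (T := T) (a := 4 * P + x) (by omega) (by omega)
  rwa [show x + 4 * (P + 1) = 4 * P + x + 4 by ring]

lemma fadj_symm {T a b : ℕ} (h : fadj T a b) : fadj T b a := Or.symm h

lemma isChain_fadj_reverse {T : ℕ} {l : List ℕ} (h : List.IsChain (fadj T) l) :
    List.IsChain (fadj T) l.reverse := by
  rw [List.isChain_reverse]
  exact h.imp (fun a b hab => fadj_symm hab)

lemma brg_chain {p P n m a b T A B : ℕ} (hc : crossOK p m a b = true) (hT : P + 1 + 4 * n < T)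
    (hab : (a / 4 = p ∧ b = a + 4) ∨ (b / 4 = p ∧ a = b + 4))
    (hA : A = if a / 4 = p then 4 * P + a % 4 else 4 * (P + 1) + 16 * n + a % 4)
    (hB : B = if b / 4 = p then 4 * P + b % 4 else 4 * (P + 1) + 16 * n + b % 4) :
    List.IsChain (fadj T) (A :: (brg p P n m a b ++ [B])) := by
  rcases hab with hab | hab
  · unfold crossOK at hc
    rw [if_pos hab] at hc
    have hD : D m (a % 4) ≠ [] := by
      intro h; rw [h] at hc; simp at hc
    have h1 : b % 4 = a % 4 := by omega
    rw [if_pos hab.1] at hA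
    rw [if_neg (by omega), h1] at hB
    unfold brg
    rw [if_pos hab, hA, hB]
    exact seg_chain hD hT
  · unfold crossOK at hc
    rw [if_neg (by omega), if_pos hab] at hc
    have hD : D m (b % 4) ≠ [] := by
      intro h; rw [h] at hc; simp at hc
    have h1 : a % 4 = b % 4 := by omega
    rw [if_pos hab.1] at hB
    rw [if_neg (by omega), h1] at hA
    unfold brg
    rw [if_neg (by omega), if_pos hab, hA, hB]
    have := isChain_fadj_reverse (seg_chain (P := P) (n := n) hD hT)
    simpa using this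

/-- The piece of the cut `p`: every new vertex is covered. -/
def maskOK (m : ℕ) : Bool := 1 ≤ m && m ≤ 6

lemma mask_cover {m : ℕ} (hm : maskOK m = true) : ∀ o, o < 16 → ∃ x, x < 3 ∧ o ∈ D m x := by
  unfold maskOK at hm
  simp only [Bool.and_eq_true, decide_eq_true_eq] at hm
  obtain ⟨h1, h2⟩ := hm
  interval_cases m <;> decide

/-- Both orientations of the crossing pair on each track of the mask. -/
def tracksOK (p m : ℕ) (L : List ℕ) : Bool :=
  ((D m 0).isEmpty || hasPair (4 * p) (4 * p + 4) L || hasPair (4 * p + 4) (4 * p) L) &&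
  ((D m 1).isEmpty || hasPair (4 * p + 1) (4 * p + 5) L || hasPair (4 * p + 5) (4 * p + 1) L) &&
  ((D m 2).isEmpty || hasPair (4 * p + 2) (4 * p + 6) L || hasPair (4 * p + 6) (4 * p + 2) L)

lemma tracks_pair {p m : ℕ} {L : List ℕ} (h : tracksOK p m L = true) {x : ℕ} (hx : x < 3)
    (hD : D m x ≠ []) :
    hasPair (4 * p + x) (4 * p + x + 4) L = true ∨ hasPair (4 * p + x + 4) (4 * p + x) L = true := by
  unfold tracksOK at h
  simp only [Bool.and_eq_true, Bool.or_eq_true, List.isEmpty_iff] at h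
  obtain ⟨⟨h0, h1⟩, h2⟩ := h
  interval_cases x
  · rcases h0 with (h0 | h0) | h0
    · exact absurd h0 hD
    · exact Or.inl h0
    · exact Or.inr h0
  · rcases h1 with (h1 | h1) | h1
    · exact absurd h1 hD
    · exact Or.inl h1
    · exact Or.inr h1
  · rcases h2 with (h2 | h2) | h2
    · exact absurd h2 hD
    · exact Or.inl h2
    · exact Or.inr h2

lemma brg_cover {p P n m : ℕ} {L : List ℕ} (hm : maskOK m = true) (ht : tracksOK p m L = true)
    {w : ℕ} (h1 : 4 * (P + 1) ≤ w) (h2 : w < 4 * (P + 1) + 16 * n) :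
    ∃ a b, hasPair a b L = true ∧ w ∈ brg p P n m a b := by
  obtain ⟨x, hx, ho⟩ := mask_cover hm ((w - 4 * (P + 1)) % 16) (Nat.mod_lt _ (by norm_num))
  have hD : D m x ≠ [] := by intro h; rw [h] at ho; simp at ho
  have hk : (w - 4 * (P + 1)) / 16 < n := by omega
  have hmem := mem_DD (D m x) ho hk
  have hw : w = (w - 4 * (P + 1)) % 16 + 16 * ((w - 4 * (P + 1)) / 16) + 4 * (P + 1) := by
    have := Nat.mod_add_div (w - 4 * (P + 1)) 16
    omega
  have hmem' : w ∈ (DD (D m x) n).map (· + 4 * (P + 1)) := by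
    rw [List.mem_map]; exact ⟨_, hmem, hw.symm⟩
  have e1 : (4 * p + x) / 4 = p := by omega
  have e2 : (4 * p + x) % 4 = x := by omega
  rcases tracks_pair ht hx hD with h | h
  · refine ⟨_, _, h, ?_⟩
    unfold brg
    rw [if_pos ⟨e1, rfl⟩, e2]
    exact hmem'
  · refine ⟨_, _, h, ?_⟩
    unfold brg
    rw [if_neg (by omega), if_pos ⟨e1, rfl⟩, e2]
    exact List.mem_reverse.2 hmem'

lemma brg_head_fwd {p P n m a b s : ℕ} (hc : crossOK p m a b = true)
    (hab : a / 4 = p ∧ b = a + 4) (hs : s = 4 * (P + 1) + 16 * n + a % 4) :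
    (brg p P n m a b ++ [s]).head? = some (4 * (P + 1) + a % 4) := by
  unfold crossOK at hc
  rw [if_pos hab] at hc
  have hD : D m (a % 4) ≠ [] := by
    intro h; rw [h] at hc; simp at hc
  unfold brg
  rw [if_pos hab]
  obtain ⟨r, hr⟩ := DD_head hD n
  have h2 : (DD (D m (a % 4)) n).map (· + 4 * (P + 1)) ++ [s]
      = (DD (D m (a % 4)) n ++ [16 * n + a % 4]).map (· + 4 * (P + 1)) := by
    rw [List.map_append, hs]; simp; ring
  rw [h2, hr]
  simp; ring

lemma brg_nil {p P n m a b : ℕ} (h1 : ¬ (a / 4 = p ∧ b = a + 4)) (h2 : ¬ (b / 4 = p ∧ a = b + 4)) :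
    brg p P n m a b = [] := by
  unfold brg; rw [if_neg h1, if_neg h2]

/-! ### Table entries -/

/-- A base path with two cuts and the masks of the tracks on which the path crosses them. -/
structure Entry where
  p : ℕ
  q : ℕ
  mp : ℕ
  mq : ℕ
  L : List ℕ

/-- The new number of an old vertex. -/
def shf (e : Entry) (A B a : ℕ) : ℕ :=
  if a < 4 * (e.p + 1) then a else if a < 4 * (e.q + 1) then a + 16 * A else a + 16 * A + 16 * B

/-- The list inserted between consecutive vertices. -/
def brr (e : Entry) (A B a b : ℕ) : List ℕ :=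
  brg e.p e.p A e.mp a b ++ brg e.q (e.q + 4 * A) B e.mq a b

/-- Boolean form of `fadj0`. -/
def adj0B (t a b : ℕ) : Bool :=
  (Nat.blt a (4 * t) && Nat.blt b (4 * t)) &&
    ((Nat.beq (a / 4) (b / 4) && Nat.blt (a % 4) 3 && Nat.beq (b % 4) 3) ||
     (Nat.blt (a % 4) 3 && Nat.beq b (a + 4)) ||
     (Nat.beq (a / 4 + 1) t && Nat.beq (b / 4) 0 &&
       ((Nat.beq (a % 4) 0 && Nat.beq (b % 4) 0) || (Nat.beq (a % 4) 1 && Nat.beq (b % 4) 2) ||
        (Nat.beq (a % 4) 2 && Nat.beq (b % 4) 1))))

/-- Boolean form of `fadj`. -/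
def adjB (t a b : ℕ) : Bool := adj0B t a b || adj0B t b a

/-- The test on consecutive elements of a base path. -/
def pairOK (t : ℕ) (e : Entry) (a b : ℕ) : Bool :=
  adjB t a b && crossOK e.p e.mp a b && crossOK e.q e.mq a b

/-- The complete test of a base path in `J_t` from `a` to `4 j + b`. -/
def chkEntry (t j a b : ℕ) (e : Entry) : Bool :=
  Nat.ble e.p 1 && (Nat.beq e.q j || Nat.beq e.q (j + 1)) && maskOK e.mp && maskOK e.mq &&
  pairsOK (pairOK t e) e.L && Nat.beq (bits e.L) (2 ^ (4 * t) - 1) &&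
  Nat.beq e.L.length (4 * t) && Nat.beq (wsum (wt e.p e.mp) e.L) 16 &&
  Nat.beq (wsum (wt e.q e.mq) e.L) 16 && tracksOK e.p e.mp e.L && tracksOK e.q e.mq e.L &&
  (e.L.head? == some a) && (e.L.getLast? == some (4 * j + b))

lemma adj0B_spec {t a b : ℕ} (h : adj0B t a b = true) :
    a < 4 * t ∧ b < 4 * t ∧ ((a / 4 = b / 4 ∧ a % 4 < 3 ∧ b % 4 = 3) ∨ (a % 4 < 3 ∧ b = a + 4) ∨
      (a / 4 + 1 = t ∧ b / 4 = 0 ∧ ((a % 4 = 0 ∧ b % 4 = 0) ∨ (a % 4 = 1 ∧ b % 4 = 2) ∨
        (a % 4 = 2 ∧ b % 4 = 1)))) := by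
  unfold adj0B at h
  simp only [Bool.and_eq_true, Bool.or_eq_true, Nat.blt_eq, Nat.beq_eq] at h
  tauto

lemma shf_adj0 {e : Entry} {t A B a b : ℕ} (hp : e.p < e.q) (hq : e.q + 1 < t)
    (h : adj0B t a b = true) (h1 : ¬ (a / 4 = e.p ∧ b = a + 4)) (h2 : ¬ (a / 4 = e.q ∧ b = a + 4)) :
    fadj (t + 4 * A + 4 * B) (shf e A B a) (shf e A B b) := by
  obtain ⟨ha, hb, h⟩ := adj0B_spec h
  rcases h with ⟨h3, h4, h5⟩ | ⟨h3, h4⟩ | ⟨h3, h4, h5⟩
  · obtain ⟨k, hk1, hk2, hk3⟩ : ∃ k, shf e A B a = a + 4 * k ∧ shf e A B b = b + 4 * k ∧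
        a + 4 * k < 4 * (t + 4 * A + 4 * B) := by
      unfold shf
      by_cases c1 : a < 4 * (e.p + 1)
      · rw [if_pos c1, if_pos (by omega)]; exact ⟨0, by omega, by omega, by omega⟩
      · rw [if_neg c1, if_neg (show ¬ b < 4 * (e.p + 1) by omega)]
        by_cases c2 : a < 4 * (e.q + 1)
        · rw [if_pos c2, if_pos (by omega)]; exact ⟨4 * A, by omega, by omega, by omega⟩
        · rw [if_neg c2, if_neg (show ¬ b < 4 * (e.q + 1) by omega)]
          exact ⟨4 * A + 4 * B, by omega, by omega, by omega⟩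
    rw [hk1, hk2]
    exact fadj_claw hk3 (by omega) (by omega) (by omega)
  · obtain ⟨k, hk1, hk2, hk3⟩ : ∃ k, shf e A B a = a + 4 * k ∧ shf e A B b = a + 4 * k + 4 ∧
        a + 4 * k + 4 < 4 * (t + 4 * A + 4 * B) := by
      unfold shf
      by_cases c1 : a < 4 * (e.p + 1)
      · rw [if_pos c1, if_pos (by omega)]; exact ⟨0, by omega, by omega, by omega⟩
      · rw [if_neg c1, if_neg (show ¬ b < 4 * (e.p + 1) by omega)]
        by_cases c2 : a < 4 * (e.q + 1)
        · rw [if_pos c2, if_pos (by omega)]; exact ⟨4 * A, by omega, by omega, by omega⟩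
        · rw [if_neg c2, if_neg (show ¬ b < 4 * (e.q + 1) by omega)]
          exact ⟨4 * A + 4 * B, by omega, by omega, by omega⟩
    rw [hk1, hk2]
    exact fadj_step hk3 (by omega)
  · have e1 : shf e A B a = a + 16 * A + 16 * B := by
      unfold shf; rw [if_neg (by omega), if_neg (by omega)]
    have e2 : shf e A B b = b := by
      unfold shf; rw [if_pos (by omega)]
    rw [e1, e2]
    refine Or.inl ⟨by omega, by omega, Or.inr (Or.inr ⟨by omega, h4, ?_⟩)⟩
    have : (a + 16 * A + 16 * B) % 4 = a % 4 := by omega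
    rw [this]
    exact h5

lemma brr_chain {e : Entry} {t A B a b : ℕ} (hp : e.p < e.q) (hq : e.q + 1 < t)
    (h : pairOK t e a b = true) :
    List.IsChain (fadj (t + 4 * A + 4 * B)) (shf e A B a :: (brr e A B a b ++ [shf e A B b])) := by
  unfold pairOK at h
  simp only [Bool.and_eq_true] at h
  obtain ⟨⟨h1, h2⟩, h3⟩ := h
  unfold brr
  by_cases c1 : (a / 4 = e.p ∧ b = a + 4) ∨ (b / 4 = e.p ∧ a = b + 4)
  · rw [brg_nil (p := e.q) (by omega) (by omega), List.append_nil]
    refine brg_chain h2 (by omega) c1 ?_ ?_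
    · unfold shf; split_ifs <;> omega
    · unfold shf; split_ifs <;> omega
  · rw [brg_nil (p := e.p) (by omega) (by omega), List.nil_append]
    by_cases c2 : (a / 4 = e.q ∧ b = a + 4) ∨ (b / 4 = e.q ∧ a = b + 4)
    · refine brg_chain h3 (by omega) c2 ?_ ?_
      · unfold shf; split_ifs <;> omega
      · unfold shf; split_ifs <;> omega
    · rw [brg_nil (by omega) (by omega), List.nil_append, List.isChain_pair]
      unfold adjB at h1
      simp only [Bool.or_eq_true] at h1
      rcases h1 with h1 | h1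
      · exact shf_adj0 hp hq h1 (by omega) (by omega)
      · exact fadj_symm (shf_adj0 hp hq h1 (by omega) (by omega))

/-! ### The main lemma on one entry -/

lemma pairsOK_last {f : ℕ → ℕ → Bool} {z v : ℕ} :
    ∀ l : List ℕ, pairsOK f (l ++ [z, v]) = true → f z v = true
  | [], h => by simpa [pairsOK] using h
  | [x], h => by
      simp only [List.cons_append, List.nil_append, pairsOK, Bool.and_eq_true] at h
      exact h.2.1
  | x :: y :: l, h => by
      have h' : pairsOK f (x :: y :: (l ++ [z, v])) = true := h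
      simp only [pairsOK, Bool.and_eq_true] at h'
      exact pairsOK_last (y :: l) h'.2

lemma head?_append_cons (l r : List ℕ) (c : ℕ) : (l ++ c :: r).head? = (l ++ [c]).head? := by
  cases l <;> simp

/-- Movement of the second vertex. -/
def mvF (A B y : ℕ) : ℕ := if y < 8 then y else y + 16 * A + 16 * B

lemma adjB_cases {t a b : ℕ} (h : adjB t a b = true) :
    a < 4 * t ∧ b < 4 * t ∧ (a / 4 = b / 4 ∨ b = a + 4 ∨ a = b + 4 ∨
      (a / 4 + 1 = t ∧ b / 4 = 0) ∨ (b / 4 + 1 = t ∧ a / 4 = 0)) := by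
  unfold adjB at h
  simp only [Bool.or_eq_true] at h
  rcases h with h | h
  · have := adj0B_spec h; omega
  · have := adj0B_spec h; omega

lemma second_head {e : Entry} {t j A B a y : ℕ} (hj : 3 ≤ j) (hq : j ≤ e.q) (hp : e.p ≤ 1)
    (hqt : e.q + 1 < t) (ha : a < 4) (h : pairOK t e a y = true) :
    (brr e A B a y ++ [shf e A B y]).head? = some (mvF A B y) := by
  unfold pairOK at h
  simp only [Bool.and_eq_true] at h
  obtain ⟨⟨h1, h2⟩, h3⟩ := h
  have hc := adjB_cases h1
  unfold brr
  rw [brg_nil (p := e.q) (by omega) (by omega), List.append_nil]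
  by_cases c1 : a / 4 = e.p ∧ y = a + 4
  · have hs : shf e A B y = 4 * (e.p + 1) + 16 * A + a % 4 := by
      unfold shf; rw [if_neg (by omega), if_pos (by omega)]; omega
    rw [brg_head_fwd h2 c1 hs]
    unfold mvF
    rw [if_pos (by omega)]
    congr 1; omega
  · rw [brg_nil c1 (by omega), List.nil_append]
    unfold mvF shf
    simp only [List.head?_cons, Option.some.injEq]
    split_ifs <;> omega

lemma last_head {e : Entry} {t j A B v z : ℕ} (hj : 3 ≤ j) (hq : j ≤ e.q) (hq' : e.q ≤ j + 1)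
    (hp : e.p ≤ 1) (hqt : e.q + 1 < t) (hv : v / 4 = j) (h : pairOK t e z v = true) :
    ((brr e A B z v).reverse ++ [shf e A B z]).head? = some (z + 16 * A) := by
  unfold pairOK at h
  simp only [Bool.and_eq_true] at h
  obtain ⟨⟨h1, h2⟩, h3⟩ := h
  have hc := adjB_cases h1
  unfold brr
  rw [brg_nil (p := e.p) (by omega) (by omega), List.nil_append, ← brg_symm]
  by_cases c1 : v / 4 = e.q ∧ z = v + 4
  · have hs : shf e A B z = 4 * (e.q + 4 * A + 1) + 16 * B + v % 4 := by
      unfold shf; rw [if_neg (by omega), if_neg (by omega)]; omega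
    have h3' : crossOK e.q e.mq v z = true := by
      unfold crossOK at h3 ⊢
      rw [if_neg (by omega), if_pos c1] at h3
      rw [if_pos c1]; exact h3
    rw [brg_head_fwd h3' c1 hs]
    congr 1; omega
  · rw [brg_nil c1 (by omega), List.nil_append]
    unfold shf
    simp only [List.head?_cons, Option.some.injEq]
    split_ifs <;> omega

theorem entry_main {t j a b : ℕ} {e : Entry} (h : chkEntry t j a b e = true) (ha : a < 4)
    (hb : b < 4) (hj : 3 ≤ j) (hr : j + 3 ≤ t) (A B : ℕ) :
    ∃ (L' : List ℕ) (y z : ℕ), L'.head? = some a ∧ L'.getLast? = some (4 * (j + 4 * A) + b) ∧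
      L'.Nodup ∧ (∀ w, w ∈ L' ↔ w < 4 * (t + 4 * A + 4 * B)) ∧
      L'.IsChain (fadj (t + 4 * A + 4 * B)) ∧
      e.L[1]? = some y ∧ L'[1]? = some (mvF A B y) ∧
      e.L.reverse[1]? = some z ∧ L'.reverse[1]? = some (z + 16 * A) := by
  unfold chkEntry at h
  simp only [Bool.and_eq_true, Bool.or_eq_true, Nat.beq_eq, Nat.ble_eq, beq_iff_eq] at h
  obtain ⟨⟨⟨⟨⟨⟨⟨⟨⟨⟨⟨⟨hp, hq⟩, hmp⟩, hmq⟩, hpairs⟩, hbits⟩, hlen⟩, hw1⟩, hw2⟩, ht1⟩, ht2⟩, hh⟩,
    hl⟩ := h
  have hpq : e.p < e.q := by omega
  have hqt : e.q + 1 < t := by omega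
  set L' := expand (shf e A B) (brr e A B) e.L with hL'
  -- length
  have hlenL' : L'.length = 4 * (t + 4 * A + 4 * B) := by
    have hw : ∀ a b, (brr e A B a b).length = A * wt e.p e.mp a b + B * wt e.q e.mq a b := by
      intro a b; unfold brr; rw [List.length_append, brg_length, brg_length]
    rw [hL', length_expand hw, wsum_add, hw1, hw2, hlen]; ring
  -- covering
  have hmemL : ∀ w, w < 4 * t → w ∈ e.L := by
    intro w hw
    apply testBit_bits
    rw [hbits, Nat.testBit_two_pow_sub_one]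
    simpa using hw
  have hcover : ∀ w, w < 4 * (t + 4 * A + 4 * B) → w ∈ L' := by
    intro w hw
    by_cases c1 : w < 4 * (e.p + 1)
    · have : shf e A B w = w := by unfold shf; rw [if_pos c1]
      rw [← this]
      exact mem_expand_sh (hmemL w (by omega))
    · by_cases c2 : w < 4 * (e.p + 1) + 16 * A
      · obtain ⟨x, y, hxy, hxw⟩ := brg_cover (P := e.p) hmp ht1 (by omega) c2
        exact mem_expand_br (List.mem_append_left _ hxw) hxy
      · by_cases c3 : w < 4 * (e.q + 1) + 16 * A
        · have : shf e A B (w - 16 * A) = w := by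
            unfold shf; rw [if_neg (by omega), if_pos (by omega)]; omega
          rw [← this]
          exact mem_expand_sh (hmemL _ (by omega))
        · by_cases c4 : w < 4 * (e.q + 1) + 16 * A + 16 * B
          · obtain ⟨x, y, hxy, hxw⟩ := brg_cover (P := e.q + 4 * A) (n := B) (w := w) hmq ht2
              (by omega) (by omega)
            exact mem_expand_br (List.mem_append_right _ hxw) hxy
          · have : shf e A B (w - 16 * A - 16 * B) = w := by
              unfold shf; rw [if_neg (by omega), if_neg (by omega)]; omega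
            rw [← this]
            exact mem_expand_sh (hmemL _ (by omega))
  have hcard : (Finset.range (4 * (t + 4 * A + 4 * B))) ⊆ L'.toFinset := by
    intro w hw
    rw [List.mem_toFinset]
    exact hcover w (Finset.mem_range.1 hw)
  have hle : L'.toFinset.card ≤ L'.length := List.toFinset_card_le _
  have hcard2 : L'.toFinset.card = L'.length := by
    have := Finset.card_le_card hcard
    rw [Finset.card_range] at this
    omega
  have hnodup : L'.Nodup := by
    rw [← Multiset.coe_nodup, ← Multiset.dedup_card_eq_card_iff_nodup]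
    exact hcard2
  have heq : (Finset.range (4 * (t + 4 * A + 4 * B))) = L'.toFinset := by
    apply Finset.eq_of_subset_of_card_le hcard
    rw [Finset.card_range]; omega
  have hmem : ∀ w, w ∈ L' ↔ w < 4 * (t + 4 * A + 4 * B) := by
    intro w
    rw [← List.mem_toFinset, ← heq, Finset.mem_range]
  -- chain
  have hchain : L'.IsChain (fadj (t + 4 * A + 4 * B)) :=
    isChain_expand (sh := shf e A B) (br := brr e A B) (f := pairOK t e)
      (fun x y hxy => brr_chain hpq hqt hxy) _ hpairs
  -- first two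
  obtain ⟨y, rest, hLy⟩ : ∃ y rest, e.L = a :: y :: rest := by
    match hL : e.L with
    | [] => rw [hL] at hlen; simp at hlen; omega
    | [x] => rw [hL] at hlen; simp at hlen; omega
    | x :: y :: rest =>
      rw [hL] at hh; simp at hh
      exact ⟨y, rest, by rw [hh]⟩
  -- last two
  obtain ⟨z, l, hLz⟩ : ∃ z l, e.L = l ++ [z, 4 * j + b] := by
    have hr : e.L.reverse.head? = some (4 * j + b) := by rw [List.head?_reverse]; exact hl
    have hrl : e.L.reverse.length = 4 * t := by rw [List.length_reverse]; exact hlen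
    match hL : e.L.reverse with
    | [] => rw [hL] at hrl; simp at hrl; omega
    | [x] => rw [hL] at hrl; simp at hrl; omega
    | x :: y :: rest =>
      rw [hL] at hr; simp at hr
      refine ⟨y, rest.reverse, ?_⟩
      rw [← List.reverse_reverse e.L, hL, hr]; simp
  have hfirst : pairOK t e a y = true := by
    rw [hLy] at hpairs
    simp only [pairsOK, Bool.and_eq_true] at hpairs
    exact hpairs.1
  have hlast : pairOK t e z (4 * j + b) = true := by
    rw [hLz] at hpairs
    exact pairsOK_last _ hpairs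
  have hsa : shf e A B a = a := by unfold shf; rw [if_pos (by omega)]
  have hsv : shf e A B (4 * j + b) = 4 * (j + 4 * A) + b := by
    unfold shf; rw [if_neg (by omega), if_pos (by omega)]; omega
  obtain ⟨r, hr'⟩ := expand_cons (sh := shf e A B) (br := brr e A B) y rest
  have hL'1 : L' = a :: (brr e A B a y ++ shf e A B y :: r) := by
    rw [hL', hLy, expand, hr', hsa]
  obtain ⟨X, hX⟩ := expand_snoc (sh := shf e A B) (br := brr e A B) l z
  have hL'2 : L' = X ++ [shf e A B z] ++ (brr e A B z (4 * j + b) ++ [4 * (j + 4 * A) + b]) := by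
    rw [hL', hLz, expand_snoc2, hX, hsv]
  refine ⟨L', y, z, ?_, ?_, hnodup, hmem, hchain, ?_, ?_, ?_, ?_⟩
  · rw [hL'1]; rfl
  · rw [hL'2, ← List.append_assoc]; exact List.getLast?_concat
  · rw [hLy]; rfl
  · rw [hL'1, List.getElem?_cons_succ, ← List.head?_eq_getElem?, head?_append_cons]
    exact second_head hj (by omega) hp hqt ha hfirst
  · rw [hLz]; simp
  · rw [hL'2]
    have : (X ++ [shf e A B z] ++ (brr e A B z (4 * j + b) ++ [4 * (j + 4 * A) + b])).reverse
        = (4 * (j + 4 * A) + b) :: ((brr e A B z (4 * j + b)).reverse ++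
            shf e A B z :: X.reverse) := by simp
    rw [this, List.getElem?_cons_succ, ← List.head?_eq_getElem?, head?_append_cons]
    exact last_head hj (by omega) (by omega) hp hqt (by omega) hlast

/-! ### Triples -/

/-- Three base paths with distinct second and distinct last but one vertices. -/
def chkTriple (t j a b : ℕ) (T : Entry × Entry × Entry) : Bool :=
  chkEntry t j a b T.1 && chkEntry t j a b T.2.1 && chkEntry t j a b T.2.2 &&
  (T.1.L[1]? != T.2.1.L[1]?) && (T.1.L[1]? != T.2.2.L[1]?) && (T.2.1.L[1]? != T.2.2.L[1]?) &&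
  (T.1.L.reverse[1]? != T.2.1.L.reverse[1]?) && (T.1.L.reverse[1]? != T.2.2.L.reverse[1]?) &&
  (T.2.1.L.reverse[1]? != T.2.2.L.reverse[1]?)

lemma mvF_inj {A B x y : ℕ} (h : mvF A B x = mvF A B y) : x = y := by
  unfold mvF at h; split_ifs at h <;> omega

theorem triple_main {t j a b : ℕ} {T : Entry × Entry × Entry} (h : chkTriple t j a b T = true)
    (ha : a < 4) (hb : b < 4) (hj : 3 ≤ j) (hr : j + 3 ≤ t) (A B : ℕ) (x z : ℕ) :
    ∃ L, GoodPath (t + 4 * A + 4 * B) a (4 * (j + 4 * A) + b) x z L := by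
  unfold chkTriple at h
  simp only [Bool.and_eq_true, bne_iff_ne] at h
  obtain ⟨⟨⟨⟨⟨⟨⟨⟨h1, h2⟩, h3⟩, d12⟩, d13⟩, d23⟩, e12⟩, e13⟩, e23⟩ := h
  obtain ⟨L1, y1, z1, a1, b1, c1, m1, k1, f1, g1, p1, q1⟩ := entry_main h1 ha hb hj hr A B
  obtain ⟨L2, y2, z2, a2, b2, c2, m2, k2, f2, g2, p2, q2⟩ := entry_main h2 ha hb hj hr A B
  obtain ⟨L3, y3, z3, a3, b3, c3, m3, k3, f3, g3, p3, q3⟩ := entry_main h3 ha hb hj hr A B
  rw [f1, f2] at d12
  rw [f1, f3] at d13
  rw [f2, f3] at d23
  rw [p1, p2] at e12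
  rw [p1, p3] at e13
  rw [p2, p3] at e23
  have D12 : mvF A B y1 ≠ mvF A B y2 := fun h => d12 (by rw [mvF_inj h])
  have D13 : mvF A B y1 ≠ mvF A B y3 := fun h => d13 (by rw [mvF_inj h])
  have D23 : mvF A B y2 ≠ mvF A B y3 := fun h => d23 (by rw [mvF_inj h])
  have E12 : z1 + 16 * A ≠ z2 + 16 * A := fun h => e12 (by rw [show z1 = z2 by omega])
  have E13 : z1 + 16 * A ≠ z3 + 16 * A := fun h => e13 (by rw [show z1 = z3 by omega])
  have E23 : z2 + 16 * A ≠ z3 + 16 * A := fun h => e23 (by rw [show z2 = z3 by omega])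
  by_cases r1 : mvF A B y1 ≠ x ∧ z1 + 16 * A ≠ z
  · exact ⟨L1, a1, b1, c1, m1, k1, by rw [g1]; simpa using r1.1, by rw [q1]; simpa using r1.2⟩
  · by_cases r2 : mvF A B y2 ≠ x ∧ z2 + 16 * A ≠ z
    · exact ⟨L2, a2, b2, c2, m2, k2, by rw [g2]; simpa using r2.1, by rw [q2]; simpa using r2.2⟩
    · by_cases r3 : mvF A B y3 ≠ x ∧ z3 + 16 * A ≠ z
      · exact ⟨L3, a3, b3, c3, m3, k3, by rw [g3]; simpa using r3.1, by rw [q3]; simpa using r3.2⟩
      · exfalso; omega

/-- The test of a table: one triple for every pair of vertex types. -/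
def chkTab (t j : ℕ) : ℕ → List (Entry × Entry × Entry) → Bool
  | _, [] => true
  | i, T :: l => chkTriple t j (i / 4) (i % 4) T && chkTab t j (i + 1) l

/-- The test of a complete table with `16` triples. -/
def chkAll (j r : ℕ) (l : List (Entry × Entry × Entry)) : Bool :=
  Nat.beq l.length 16 && chkTab (j + r) j 0 l

lemma chkTab_spec {t j : ℕ} : ∀ {l : List (Entry × Entry × Entry)} {i : ℕ},
    chkTab t j i l = true → ∀ k, k < l.length → ∃ T, chkTriple t j ((i + k) / 4) ((i + k) % 4) T = true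
  | [], i, _, k, hk => by simp at hk
  | T :: l, i, h, k, hk => by
      simp only [chkTab, Bool.and_eq_true] at h
      cases k with
      | zero => exact ⟨T, by simpa using h.1⟩
      | succ k =>
        obtain ⟨T', hT'⟩ := chkTab_spec h.2 k (by simpa using hk)
        exact ⟨T', by rwa [show i + (k + 1) = i + 1 + k by ring]⟩

theorem all_main {j r : ℕ} {l : List (Entry × Entry × Entry)} (h : chkAll j r l = true)
    (hj : 3 ≤ j) (hr : 3 ≤ r) {a b : ℕ} (ha : a < 4) (hb : b < 4) (A B x z : ℕ) :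
    ∃ L, GoodPath (j + r + 4 * A + 4 * B) a (4 * (j + 4 * A) + b) x z L := by
  unfold chkAll at h
  simp only [Bool.and_eq_true, Nat.beq_eq] at h
  obtain ⟨T, hT⟩ := chkTab_spec h.2 (4 * a + b) (by omega)
  have e1 : (0 + (4 * a + b)) / 4 = a := by omega
  have e2 : (0 + (4 * a + b)) % 4 = b := by omega
  rw [e1, e2] at hT
  exact triple_main hT ha hb hj (by omega) A B x z

end Pool.Agent.KS6_56.Snark
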