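import Pool.Agent.KS6_56.Snark.Check
import Pool.Agent.KS6_56.Snark.Tab34
import Pool.Agent.KS6_56.Snark.Tab36
import Pool.Agent.KS6_56.Snark.Tab43
import Pool.Agent.KS6_56.Snark.Tab45
import Pool.Agent.KS6_56.Snark.Tab54
import Pool.Agent.KS6_56.Snark.Tab56
import Pool.Agent.KS6_56.Snark.Tab63
import Pool.Agent.KS6_56.Snark.Tab65

set_option autoImplicit false

namespace Pool.Agent.KS6_56.Snark

open Pool.Agent.KS6_67.Sat

/-- The case in which `u` lies in block `0`. -/
theorem core_block0 {t j a b : ℕ} (ht : t % 2 = 1) (ha : a < 4) (hb : b < 4) (hj : 3 ≤ j)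
    (hjt : j + 3 ≤ t) (x z : ℕ) : ∃ L, GoodPath t a (4 * j + b) x z L := by
  obtain ⟨A, j0, hj0, hj1, rfl⟩ : ∃ A j0, 3 ≤ j0 ∧ j0 ≤ 6 ∧ j = j0 + 4 * A :=
    ⟨(j - 3) / 4, 3 + (j - 3) % 4, by omega, by omega, by omega⟩
  obtain ⟨B, r0, hr0, hr1, hrt⟩ : ∃ B r0, 3 ≤ r0 ∧ r0 ≤ 6 ∧ t = j0 + r0 + 4 * A + 4 * B :=
    ⟨(t - (j0 + 4 * A) - 3) / 4, 3 + (t - (j0 + 4 * A) - 3) % 4, by omega, by omega, by omega⟩
  have hpar : (j0 + r0) % 2 = 1 := by omega
  subst hrt
  have key : ∀ l, chkAll j0 r0 l = true →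
      ∃ L, GoodPath (j0 + r0 + 4 * A + 4 * B) a (4 * (j0 + 4 * A) + b) x z L :=
    fun l h => all_main h hj0 hr0 ha hb A B x z
  have hj0' : j0 = 3 ∨ j0 = 4 ∨ j0 = 5 ∨ j0 = 6 := by omega
  have hr0' : r0 = 3 ∨ r0 = 4 ∨ r0 = 5 ∨ r0 = 6 := by omega
  rcases hj0' with rfl | rfl | rfl | rfl <;> rcases hr0' with rfl | rfl | rfl | rfl
  · omega
  · exact key _ tab34_ok
  · omega
  · exact key _ tab36_ok
  · exact key _ tab43_ok
  · omega
  · exact key _ tab45_ok
  · omega
  · omega
  · exact key _ tab54_ok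
  · omega
  · exact key _ tab56_ok
  · exact key _ tab63_ok
  · omega
  · exact key _ tab65_ok
  · omega

/-! ### Rotation -/

/-- Interchange of the tracks `1` and `2`. -/
def sw (x : ℕ) : ℕ := if x = 1 then 2 else if x = 2 then 1 else x

/-- Rotation by one block. -/
def rot (t a : ℕ) : ℕ := if 4 * t ≤ a then a else if a + 4 < 4 * t then a + 4 else sw (a % 4)

/-- Inverse rotation. -/
def rotI (t a : ℕ) : ℕ := if 4 * t ≤ a then a else if 4 ≤ a then a - 4 else 4 * (t - 1) + sw a

lemma sw_lt {x : ℕ} (h : x < 4) : sw x < 4 := by unfold sw; split_ifs <;> omega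

lemma sw_sw (x : ℕ) : sw (sw x) = x := by unfold sw; split_ifs <;> omega

lemma rot_rotI {t : ℕ} (ht : 2 ≤ t) (a : ℕ) : rot t (rotI t a) = a := by
  unfold rotI
  by_cases h1 : 4 * t ≤ a
  · rw [if_pos h1]; unfold rot; rw [if_pos h1]
  · rw [if_neg h1]
    by_cases h2 : 4 ≤ a
    · rw [if_pos h2]; unfold rot; rw [if_neg (by omega), if_pos (by omega)]; omega
    · rw [if_neg h2]
      have := sw_lt (x := a) (by omega)
      unfold rot
      rw [if_neg (by omega), if_neg (by omega)]
      have : (4 * (t - 1) + sw a) % 4 = sw a := by omega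
      rw [this, sw_sw]

lemma rotI_rot {t : ℕ} (ht : 2 ≤ t) (a : ℕ) : rotI t (rot t a) = a := by
  unfold rot
  by_cases h1 : 4 * t ≤ a
  · rw [if_pos h1]; unfold rotI; rw [if_pos h1]
  · rw [if_neg h1]
    by_cases h2 : a + 4 < 4 * t
    · rw [if_pos h2]; unfold rotI; rw [if_neg (by omega), if_pos (by omega)]; omega
    · rw [if_neg h2]
      have := sw_lt (x := a % 4) (by omega)
      unfold rotI
      rw [if_neg (by omega), if_neg (by omega), sw_sw]
      omega

lemma rot_lt {t : ℕ} (_ht : 2 ≤ t) (a : ℕ) : rot t a < 4 * t ↔ a < 4 * t := by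
  unfold rot
  have := sw_lt (x := a % 4) (by omega)
  split_ifs <;> omega

lemma rot_lo {t a : ℕ} (h : a + 4 < 4 * t) : rot t a = a + 4 := by
  unfold rot; rw [if_neg (by omega), if_pos h]

lemma rot_hi {t a : ℕ} (h : ¬ a + 4 < 4 * t) (h' : a < 4 * t) : rot t a = sw (a % 4) := by
  unfold rot; rw [if_neg (by omega), if_neg h]

lemma fadj0_rot {t a b : ℕ} (ht : 3 ≤ t) (h : fadj0 t a b) : fadj t (rot t a) (rot t b) := by
  obtain ⟨ha, hb, h⟩ := h
  have hsa := sw_lt (x := a % 4) (by omega)
  have hsb := sw_lt (x := b % 4) (by omega)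
  rcases h with ⟨h1, h2, h3⟩ | ⟨h1, h2, h3⟩ | ⟨h1, h2, h3⟩
  · by_cases c : a + 4 < 4 * t
    · rw [rot_lo c, rot_lo (show b + 4 < 4 * t by omega)]
      exact fadj_claw c (by omega) (by omega) (by omega)
    · rw [rot_hi c ha, rot_hi (show ¬ b + 4 < 4 * t by omega) hb]
      refine fadj_claw (by omega) (by omega) ?_ ?_
      · unfold sw; split_ifs <;> omega
      · rw [h3]; decide
  · obtain rfl : b = a + 4 := by omega
    rw [rot_lo (show a + 4 < 4 * t by omega)]
    by_cases c : a + 4 + 4 < 4 * t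
    · rw [rot_lo c]
      exact fadj_step c (by omega)
    · rw [rot_hi c hb]
      refine Or.inl ⟨by omega, by omega, Or.inr (Or.inr ⟨by omega, by omega, ?_⟩)⟩
      unfold sw; split_ifs <;> omega
  · rw [rot_hi (show ¬ a + 4 < 4 * t by omega) ha, rot_lo (show b + 4 < 4 * t by omega)]
    have hb' : b + 4 = sw (a % 4) + 4 := by unfold sw; split_ifs <;> omega
    rw [hb']
    refine fadj_step (by omega) ?_
    unfold sw; split_ifs <;> omega

lemma fadj_rot {t a b : ℕ} (ht : 3 ≤ t) (h : fadj t a b) : fadj t (rot t a) (rot t b) := by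
  rcases h with h | h
  · exact fadj0_rot ht h
  · exact fadj_symm (fadj0_rot ht h)

lemma goodPath_rot {t u v x z : ℕ} {L : List ℕ} (ht : 3 ≤ t) (h : GoodPath t u v x z L) :
    GoodPath t (rot t u) (rot t v) (rot t x) (rot t z) (L.map (rot t)) := by
  have hinj : Function.Injective (rot t) :=
    Function.LeftInverse.injective (g := rotI t) (rotI_rot (by omega))
  obtain ⟨h1, h2, h3, h4, h5, h6, h7⟩ := h
  refine ⟨?_, ?_, h3.map hinj, ?_, ?_, ?_, ?_⟩
  · rw [List.head?_map, h1]; rfl
  · rw [List.getLast?_map, h2]; rfl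
  · intro a
    rw [List.mem_map]
    constructor
    · rintro ⟨b, hb, rfl⟩
      exact (rot_lt (by omega) b).2 ((h4 b).1 hb)
    · intro ha
      refine ⟨rotI t a, (h4 _).2 ?_, rot_rotI (by omega) a⟩
      rw [← rot_lt (by omega), rot_rotI (by omega)]
      exact ha
  · rw [List.isChain_map]
    exact h5.imp (fun a b hab => fadj_rot ht hab)
  · intro h
    rw [List.getElem?_map] at h
    cases hL : L[1]? with
    | none => rw [hL] at h; simp at h
    | some y =>
      rw [hL] at h
      simp only [Option.map_some, Option.some.injEq] at h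
      exact h6 (by rw [hL, hinj h])
  · intro h
    rw [← List.map_reverse, List.getElem?_map] at h
    cases hL : L.reverse[1]? with
    | none => rw [hL] at h; simp at h
    | some y =>
      rw [hL] at h
      simp only [Option.map_some, Option.some.injEq] at h
      exact h7 (by rw [hL, hinj h])

/-- The flower snark path lemma: two vertices of `J_t`, `t ≥ 7` odd, at cyclic block distance at
least `3` are the ends of a Hamiltonian path which avoids a prescribed second vertex and a
prescribed last but one vertex. -/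
theorem core_paths {t : ℕ} (ht : t % 2 = 1) (h7 : 7 ≤ t) :
    ∀ u v, u < 4 * t → v < 4 * t → far t u v → ∀ x z, ∃ L, GoodPath t u v x z L := by
  have main : ∀ n u v, u / 4 = n → u < 4 * t → v < 4 * t → far t u v →
      ∀ x z, ∃ L, GoodPath t u v x z L := by
    intro n
    induction n with
    | zero =>
      intro u v hn hu hv hf x z
      unfold far at hf
      have : v = 4 * (v / 4) + v % 4 := by omega
      rw [this]
      exact core_block0 ht (by omega) (by omega) (by omega) (by omega) x z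
    | succ n ih =>
      intro u v hn hu hv hf x z
      have hu' : rotI t u = u - 4 := by
        unfold rotI; rw [if_neg (by omega), if_pos (by omega)]
      have hfar : far t (rotI t u) (rotI t v) := by
        rw [hu']
        unfold rotI
        rw [if_neg (by omega)]
        unfold far at hf ⊢
        by_cases c : 4 ≤ v
        · rw [if_pos c]; omega
        · rw [if_neg c]
          have := sw_lt (x := v) (by omega)
          omega
      have hv' : rotI t v < 4 * t := by
        rw [← rot_lt (by omega), rot_rotI (by omega)]; exact hv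
      obtain ⟨L, hL⟩ := ih (rotI t u) (rotI t v) (by omega) (by omega) hv' hfar
        (rotI t x) (rotI t z)
      have := goodPath_rot (by omega) hL
      rw [rot_rotI (by omega), rot_rotI (by omega), rot_rotI (by omega), rot_rotI (by omega)] at this
      exact ⟨_, this⟩
  intro u v hu hv hf x z
  exact main _ u v rfl hu hv hf x z

theorem core_paths' {t : ℕ} (ht : Odd t) (h7 : 7 ≤ t) (u v x z : ℕ) (hu : u < 4 * t)
    (hv : v < 4 * t) (hf : far t u v) : ∃ L, GoodPath t u v x z L :=
  core_paths (Nat.odd_iff.1 ht) h7 u v hu hv hf x z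

end Pool.Agent.KS6_56.Snark
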