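import Mathlib
import Pool.Agent.KS6_67.Sat.Port
import Pool.Agent.KS6_56.Snark.Core

set_option autoImplicit false

namespace Pool.Agent.KS6_56.Snark

open Pool.Agent.KS6_67.Sat Finset

/-! ### The combinatorial part -/

/-- The indicator of the left cut of block `i`. -/
def lf (t : ℕ) (r : ℕ → ℕ → ℕ) (i x : ℕ) : ℕ := if i = 0 then r (t - 1) (sw x) else r (i - 1) x

/-- The missing track at the right cut of block `i`. -/
def mu (r : ℕ → ℕ → ℕ) (i : ℕ) : ℕ := if r i 0 = 0 then 0 else if r i 1 = 0 then 1 else 2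

/-- The missing track at the left cut of block `i`. -/
def la (t : ℕ) (r : ℕ → ℕ → ℕ) (i : ℕ) : ℕ := if i = 0 then sw (mu r (t - 1)) else mu r (i - 1)

/-- The invariant for the tracks `l`, `m` missing on the left and on the right, and `x`. -/
def ivb (l m x : ℕ) : ℕ := if x < 3 ∧ x ≠ m ∧ x ≠ l then (m + 3 - l) % 3 else (m + 3 - l) % 3 + 1

/-- The invariant. -/
def iv (t : ℕ) (r : ℕ → ℕ → ℕ) (u : ℕ) : ℕ :=
  (ivb (la t r (u / 4)) (mu r (u / 4)) (u % 4) + u / 4) % 2

lemma sum_two {t : ℕ} {r g : ℕ → ℕ → ℕ} (ht : t % 2 = 1)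
    (hV : ∀ i x, i < t → x < 3 → r i x + lf t r i x + g i x = 2)
    (hC : ∀ i, i < t → g i 0 + g i 1 + g i 2 = 2) :
    ∀ i, i < t → r i 0 + r i 1 + r i 2 = 2 := by
  have h0 : (r 0 0 + r 0 1 + r 0 2) + (r (t - 1) 0 + r (t - 1) 1 + r (t - 1) 2) = 4 := by
    have a := hV 0 0 (by omega) (by omega)
    have b := hV 0 1 (by omega) (by omega)
    have c := hV 0 2 (by omega) (by omega)
    have d := hC 0 (by omega)
    simp only [lf, if_true] at a b c
    have e0 : sw 0 = 0 := by decide
    have e1 : sw 1 = 2 := by decide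
    have e2 : sw 2 = 1 := by decide
    rw [e0] at a
    rw [e1] at b
    rw [e2] at c
    omega
  have h1 : ∀ i, i + 1 < t →
      (r (i + 1) 0 + r (i + 1) 1 + r (i + 1) 2) + (r i 0 + r i 1 + r i 2) = 4 := by
    intro i hi
    have a := hV (i + 1) 0 (by omega) (by omega)
    have b := hV (i + 1) 1 (by omega) (by omega)
    have c := hV (i + 1) 2 (by omega) (by omega)
    have d := hC (i + 1) (by omega)
    simp only [lf, Nat.add_eq_zero_iff, one_ne_zero, and_false, if_false, Nat.add_sub_cancel]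
      at a b c
    omega
  have h2 : ∀ i, i < t → r i 0 + r i 1 + r i 2 =
      if i % 2 = 0 then r 0 0 + r 0 1 + r 0 2 else 4 - (r 0 0 + r 0 1 + r 0 2) := by
    intro i
    induction i with
    | zero => intro _; simp
    | succ i ih =>
      intro hi
      have a := ih (by omega)
      have b := h1 i hi
      split_ifs at a ⊢ <;> omega
  have h3 := h2 (t - 1) (by omega)
  rw [if_pos (by omega)] at h3
  intro i hi
  rw [h2 i hi]
  split_ifs <;> omega

lemma mu_lt (r : ℕ → ℕ → ℕ) (i : ℕ) : mu r i < 3 := by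
  unfold mu; split_ifs <;> omega

lemma sw_lt3 {x : ℕ} (h : x < 3) : sw x < 3 := by unfold sw; split_ifs <;> omega

lemma la_lt (t : ℕ) (r : ℕ → ℕ → ℕ) (i : ℕ) : la t r i < 3 := by
  unfold la
  split_ifs
  · exact sw_lt3 (mu_lt _ _)
  · exact mu_lt _ _

lemma r_iff {r : ℕ → ℕ → ℕ} {i : ℕ} (hr : ∀ x, r i x ≤ 1) (h : r i 0 + r i 1 + r i 2 = 2)
    {x : ℕ} (hx : x < 3) : r i x = if x = mu r i then 0 else 1 := by
  have h0 := hr 0
  have h1 := hr 1
  have h2 := hr 2
  generalize hr0 : r i 0 = p0 at *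
  generalize hr1 : r i 1 = p1 at *
  generalize hr2 : r i 2 = p2 at *
  have hm : mu r i = if p0 = 0 then 0 else if p1 = 0 then 1 else 2 := by
    unfold mu; rw [hr0, hr1]
  rw [hm]
  obtain rfl : p2 = 2 - p0 - p1 := by omega
  have a0 : p0 = 0 ∨ p0 = 1 := by omega
  have a1 : p1 = 0 ∨ p1 = 1 := by omega
  interval_cases x
  · rw [hr0]; rcases a0 with rfl | rfl <;> rcases a1 with rfl | rfl <;> simp_all
  · rw [hr1]; rcases a0 with rfl | rfl <;> rcases a1 with rfl | rfl <;> simp_all
  · rw [hr2]; rcases a0 with rfl | rfl <;> rcases a1 with rfl | rfl <;> simp_all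

lemma l_iff {t : ℕ} {r : ℕ → ℕ → ℕ} {i : ℕ} (hr : ∀ i x, r i x ≤ 1)
    (h : ∀ i, i < t → r i 0 + r i 1 + r i 2 = 2) (hi : i < t)
    {x : ℕ} (hx : x < 3) : lf t r i x = if x = la t r i then 0 else 1 := by
  unfold lf la
  by_cases h0 : i = 0
  · rw [if_pos h0, if_pos h0, r_iff (hr _) (h _ (by omega)) (sw_lt3 hx)]
    by_cases h1 : sw x = mu r (t - 1)
    · rw [if_pos h1, if_pos (by rw [← h1, sw_sw])]
    · rw [if_neg h1, if_neg]
      intro h2
      apply h1
      rw [h2, sw_sw]
  · rw [if_neg h0, if_neg h0, r_iff (hr _) (h _ (by omega)) hx]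

lemma mu_ne_la {t : ℕ} {r g : ℕ → ℕ → ℕ} (hr : ∀ i x, r i x ≤ 1) (hg : ∀ i x, g i x ≤ 1)
    (hV : ∀ i x, i < t → x < 3 → r i x + lf t r i x + g i x = 2)
    (h : ∀ i, i < t → r i 0 + r i 1 + r i 2 = 2) {i : ℕ} (hi : i < t) :
    mu r i ≠ la t r i := by
  intro he
  have h1 := hV i (mu r i) hi (mu_lt _ _)
  rw [l_iff hr h hi (mu_lt _ _), r_iff (hr i) (h i hi) (mu_lt _ _), if_pos rfl, if_pos he] at h1
  have := hg i (mu r i)
  omega

/-- The right neighbour. -/
def rt (t i x : ℕ) : ℕ := if i + 1 < t then 4 * (i + 1) + x else sw x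

lemma iv_step1 : ∀ l m m' x : Fin 3, l ≠ m → m' ≠ m → x ≠ m →
    (ivb l m x) % 2 = (ivb m m' x + 1) % 2 := by decide

lemma iv_step2 : ∀ l m m' x : Fin 3, l ≠ m → m' ≠ sw m → x ≠ m →
    (ivb l m x) % 2 = (ivb (sw m) m' (sw x)) % 2 := by decide

lemma iv_right {t : ℕ} {r g : ℕ → ℕ → ℕ} (ht : t % 2 = 1) (hr : ∀ i x, r i x ≤ 1)
    (hg : ∀ i x, g i x ≤ 1)
    (hV : ∀ i x, i < t → x < 3 → r i x + lf t r i x + g i x = 2)
    (h : ∀ i, i < t → r i 0 + r i 1 + r i 2 = 2) {i x : ℕ} (hi : i < t) (hx : x < 3)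
    (hrx : r i x = 1) : iv t r (4 * i + x) = iv t r (rt t i x) := by
  have hxm : x ≠ mu r i := by
    intro he
    rw [r_iff (hr i) (h i hi) hx, if_pos he] at hrx
    omega
  have h1 := mu_ne_la hr hg hV h hi
  have e1 : (4 * i + x) / 4 = i := by omega
  have e2 : (4 * i + x) % 4 = x := by omega
  unfold iv rt
  rw [e1, e2]
  by_cases c : i + 1 < t
  · have h2 := mu_ne_la hr hg hV h c
    rw [if_pos c]
    have e3 : (4 * (i + 1) + x) / 4 = i + 1 := by omega
    have e4 : (4 * (i + 1) + x) % 4 = x := by omega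
    rw [e3, e4]
    have e5 : la t r (i + 1) = mu r i := by simp [la]
    rw [e5] at h2 ⊢
    have key := iv_step1 ⟨la t r i, la_lt _ _ _⟩ ⟨mu r i, mu_lt _ _⟩ ⟨mu r (i + 1), mu_lt _ _⟩
      ⟨x, hx⟩ (by simpa using h1.symm) (by simpa using h2) (by simpa using hxm)
    simp only at key
    omega
  · have h2 := mu_ne_la hr hg hV h (show 0 < t by omega)
    rw [if_neg c]
    have hs := sw_lt3 hx
    have e3 : (sw x) / 4 = 0 := by omega
    have e4 : (sw x) % 4 = sw x := by omega
    rw [e3, e4]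
    have e5 : la t r 0 = sw (mu r i) := by
      unfold la; rw [if_pos rfl, show t - 1 = i by omega]
    rw [e5] at h2 ⊢
    have key := iv_step2 ⟨la t r i, la_lt _ _ _⟩ ⟨mu r i, mu_lt _ _⟩ ⟨mu r 0, mu_lt _ _⟩
      ⟨x, hx⟩ (by simpa using h1.symm) (by simpa using h2) (by simpa using hxm)
    simp only at key
    omega

lemma iv_centre {t : ℕ} {r g : ℕ → ℕ → ℕ} (hr : ∀ i x, r i x ≤ 1)
    (hV : ∀ i x, i < t → x < 3 → r i x + lf t r i x + g i x = 2)
    (h : ∀ i, i < t → r i 0 + r i 1 + r i 2 = 2) {i x : ℕ} (hi : i < t) (hx : x < 3)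
    (hgx : g i x = 1) : iv t r (4 * i + x) = iv t r (4 * i + 3) := by
  have h1 := hV i x hi hx
  rw [l_iff hr h hi hx, r_iff (hr i) (h i hi) hx] at h1
  have h2 : x = mu r i ∨ x = la t r i := by
    by_contra hc
    push Not at hc
    rw [if_neg hc.1, if_neg hc.2] at h1
    omega
  unfold iv
  have e1 : (4 * i + x) / 4 = i := by omega
  have e2 : (4 * i + x) % 4 = x := by omega
  have e3 : (4 * i + 3) / 4 = i := by omega
  have e4 : (4 * i + 3) % 4 = 3 := by omega
  rw [e1, e2, e3, e4]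
  unfold ivb
  rw [if_neg (by rintro ⟨-, a, b⟩; tauto), if_neg (by omega)]

lemma iv_diff {t : ℕ} {r g : ℕ → ℕ → ℕ} (ht : 0 < t) (hr : ∀ i x, r i x ≤ 1)
    (hg : ∀ i x, g i x ≤ 1)
    (hV : ∀ i x, i < t → x < 3 → r i x + lf t r i x + g i x = 2)
    (h : ∀ i, i < t → r i 0 + r i 1 + r i 2 = 2) :
    ∃ x, x < 3 ∧ iv t r x ≠ iv t r 3 := by
  have h1 := mu_ne_la hr hg hV h ht
  have h2 := mu_lt r 0
  have h3 := la_lt t r 0
  obtain ⟨x, hx, hx1, hx2⟩ : ∃ x, x < 3 ∧ x ≠ mu r 0 ∧ x ≠ la t r 0 := by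
    by_cases c0 : 0 ≠ mu r 0 ∧ 0 ≠ la t r 0
    · exact ⟨0, by omega, c0.1, c0.2⟩
    · by_cases c1 : 1 ≠ mu r 0 ∧ 1 ≠ la t r 0
      · exact ⟨1, by omega, c1.1, c1.2⟩
      · exact ⟨2, by omega, by omega, by omega⟩
  refine ⟨x, hx, ?_⟩
  unfold iv
  have e1 : x / 4 = 0 := by omega
  have e2 : x % 4 = x := by omega
  rw [e1, e2]
  unfold ivb
  rw [if_pos ⟨hx, hx1, hx2⟩, if_neg (by omega)]
  simp only [Nat.reduceDiv]
  omega

/-! ### Degrees in a closed walk -/

lemma changes_parity (c : ℕ → Prop) [DecidablePred c] (m : ℕ) :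
    ((range m).filter (fun i => ¬ (c i ↔ c (i + 1)))).card % 2 = if (c 0 ↔ c m) then 0 else 1 := by
  induction m with
  | zero => simp
  | succ m ih =>
    rw [range_add_one, filter_insert]
    by_cases h : (c m ↔ c (m + 1))
    · rw [if_neg (by simpa using h), ih]
      by_cases h0 : (c 0 ↔ c m)
      · rw [if_pos h0, if_pos (h0.trans h)]
      · rw [if_neg h0, if_neg]
        intro h1
        exact h0 (h1.trans h.symm)
    · rw [if_pos h, card_insert_of_notMem (by simp)]
      by_cases h0 : (c 0 ↔ c m)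
      · rw [if_pos h0] at ih
        rw [if_neg (by intro h1; exact h (h0.symm.trans h1))]
        omega
      · rw [if_neg h0] at ih
        rw [if_pos (by tauto)]
        omega

/-- The edge `u w` is traversed by the walk. -/
def Us (b : ℕ → ℕ) (m u w : ℕ) : Prop :=
  ∃ i < m, (b i = u ∧ b (i + 1) = w) ∨ (b i = w ∧ b (i + 1) = u)

open Classical in
/-- Its indicator. -/
noncomputable def us (b : ℕ → ℕ) (m u w : ℕ) : ℕ := if Us b m u w then 1 else 0

lemma Us_symm {b : ℕ → ℕ} {m u w : ℕ} : Us b m u w ↔ Us b m w u := by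
  unfold Us
  constructor
  · rintro ⟨i, hi, h⟩; exact ⟨i, hi, h.symm⟩
  · rintro ⟨i, hi, h⟩; exact ⟨i, hi, h.symm⟩

lemma us_symm (b : ℕ → ℕ) (m u w : ℕ) : us b m u w = us b m w u := by
  classical
  unfold us
  by_cases h : Us b m u w
  · rw [if_pos h, if_pos (Us_symm.1 h)]
  · rw [if_neg h, if_neg (fun h' => h (Us_symm.1 h'))]

lemma us_le (b : ℕ → ℕ) (m u w : ℕ) : us b m u w ≤ 1 := by
  unfold us; split_ifs <;> omega

lemma deg_two {t m : ℕ} (h3 : 3 ≤ t) (b : ℕ → ℕ) (hper : b m = b 0)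
    (hstep : ∀ i < m, b i = b (i + 1) ∨ fadj t (b i) (b (i + 1)))
    (honce : ∀ i j, i < j → j < m → b i ≠ b (i + 1) →
      ¬ ((b i = b j ∧ b (i + 1) = b (j + 1)) ∨ (b i = b (j + 1) ∧ b (i + 1) = b j)))
    (hsurj : ∀ u < 4 * t, ∃ i < m, b i = u) {u w0 w1 w2 : ℕ} (hu : u < 4 * t)
    (a0 : fadj t u w0) (a1 : fadj t u w1) (a2 : fadj t u w2)
    (p0 : port t u w0 = 0) (p1 : port t u w1 = 1) (p2 : port t u w2 = 2) :
    us b m u w0 + us b m u w1 + us b m u w2 = 2 := by
  classical
  set F := (range m).filter (fun i => ¬ (b i = u ↔ b (i + 1) = u)) with hF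
  set o : ℕ → ℕ := fun i => if b i = u then b (i + 1) else b i with ho
  -- the other end
  have hoF : ∀ i ∈ F, i < m ∧ fadj t u (o i) ∧
      ((b i = u ∧ b (i + 1) = o i) ∨ (b i = o i ∧ b (i + 1) = u)) := by
    intro i hi
    rw [hF, mem_filter, mem_range] at hi
    obtain ⟨him, hi⟩ := hi
    by_cases c : b i = u
    · have c' : b (i + 1) ≠ u := by tauto
      have : o i = b (i + 1) := by simp only [ho]; rw [if_pos c]
      rw [this]
      refine ⟨him, ?_, Or.inl ⟨c, rfl⟩⟩
      rcases hstep i him with h | h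
      · exact absurd (h ▸ c) c'
      · rwa [c] at h
    · have c' : b (i + 1) = u := by tauto
      have : o i = b i := by simp only [ho]; rw [if_neg c]
      rw [this]
      refine ⟨him, ?_, Or.inr ⟨rfl, c'⟩⟩
      rcases hstep i him with h | h
      · exact absurd (h.trans c') c
      · rw [c'] at h; exact fadj_symm h
  have hinj : Set.InjOn (fun i => port t u (o i)) (F : Set ℕ) := by
    intro i hi j hj hij
    obtain ⟨him, hia, hi1⟩ := hoF i hi
    obtain ⟨hjm, hja, hj1⟩ := hoF j hj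
    have heq : o i = o j := port_inj h3 hia hja hij
    have hne : u ≠ o i := fadj_ne h3 hia
    rcases Nat.lt_trichotomy i j with h | h | h
    · exfalso
      refine honce i j h hjm ?_ ?_
      · rcases hi1 with ⟨x, y⟩ | ⟨x, y⟩
        · rw [x, y]; exact hne
        · rw [x, y]; exact hne.symm
      · rw [← heq] at hj1
        rcases hi1 with ⟨x, y⟩ | ⟨x, y⟩ <;> rcases hj1 with ⟨x', y'⟩ | ⟨x', y'⟩ <;>
          rw [x, y, x', y'] <;> simp
    · exact h
    · exfalso
      refine honce j i h him ?_ ?_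
      · rw [← heq] at hj1
        rcases hj1 with ⟨x, y⟩ | ⟨x, y⟩
        · rw [x, y]; exact hne
        · rw [x, y]; exact hne.symm
      · rw [← heq] at hj1
        rcases hi1 with ⟨x, y⟩ | ⟨x, y⟩ <;> rcases hj1 with ⟨x', y'⟩ | ⟨x', y'⟩ <;>
          rw [x, y, x', y'] <;> simp
  set S := F.image (fun i => port t u (o i)) with hS
  have hSc : S.card = F.card := card_image_of_injOn hinj
  have hSsub : S ⊆ range 3 := by
    intro p hp
    rw [hS, mem_image] at hp
    obtain ⟨i, hi, rfl⟩ := hp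
    exact mem_range.2 (port_lt (hoF i hi).2.1)
  have hpar : F.card % 2 = 0 := by
    have := changes_parity (fun i => b i = u) m
    rw [if_pos (show (b 0 = u ↔ b m = u) by rw [hper])] at this
    exact this
  have hpos : 0 < F.card := by
    rw [card_pos]
    by_contra hemp
    rw [not_nonempty_iff_eq_empty] at hemp
    obtain ⟨i, hi, hiu⟩ := hsurj u hu
    obtain ⟨w, hw, hwu⟩ : ∃ w, w < 4 * t ∧ w ≠ u := ⟨w0, (fadj_lt a0).2, (fadj_ne h3 a0).symm⟩
    obtain ⟨j, hj, hjw⟩ := hsurj w hw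
    have hall : ∀ i < m, (b i = u ↔ b (i + 1) = u) := by
      intro i hi
      by_contra hc
      have : i ∈ F := by rw [hF, mem_filter, mem_range]; exact ⟨hi, hc⟩
      rw [hemp] at this
      simp at this
    have hind : ∀ i, i ≤ m → (b i = u ↔ b 0 = u) := by
      intro i
      induction i with
      | zero => intro _; rfl
      | succ i ih => intro hi; exact (hall i (by omega)).symm.trans (ih (by omega))
    have h1 := (hind i hi.le).1 hiu
    have h2 := (hind j hj.le).2 h1
    exact hwu (by rw [← hjw, h2])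
  have hS2 : S.card = 2 := by
    have := card_le_card hSsub
    rw [card_range] at this
    omega
  have hiff : ∀ w, fadj t u w → (Us b m u w ↔ port t u w ∈ S) := by
    intro w hw
    have hne : u ≠ w := fadj_ne h3 hw
    constructor
    · rintro ⟨i, hi, h⟩
      have hiF : i ∈ F := by
        rw [hF, mem_filter, mem_range]
        refine ⟨hi, ?_⟩
        rcases h with ⟨x, y⟩ | ⟨x, y⟩
        · rw [x, y]; simp [hne.symm]
        · rw [x, y]; simp [hne.symm]
      rw [hS, mem_image]
      refine ⟨i, hiF, ?_⟩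
      have : o i = w := by
        simp only [ho]
        rcases h with ⟨x, y⟩ | ⟨x, y⟩
        · rw [if_pos x, y]
        · rw [if_neg (by rw [x]; exact hne.symm), x]
      simp only [this]
    · intro h
      rw [hS, mem_image] at h
      obtain ⟨i, hi, hp⟩ := h
      obtain ⟨him, hia, hi1⟩ := hoF i hi
      have : o i = w := port_inj h3 hia hw hp
      rw [this] at hi1
      exact ⟨i, him, hi1⟩
  have h0 := hiff w0 a0
  have h1 := hiff w1 a1
  have h2 := hiff w2 a2
  rw [p0] at h0
  rw [p1] at h1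
  rw [p2] at h2
  have hsum : S.card = (if 0 ∈ S then 1 else 0) + (if 1 ∈ S then 1 else 0) +
      (if 2 ∈ S then 1 else 0) := by
    have : S = (range 3).filter (fun p => p ∈ S) := by
      ext p
      rw [mem_filter]
      exact ⟨fun h => ⟨hSsub h, h⟩, fun h => h.2⟩
    conv_lhs => rw [this]
    rw [card_filter, sum_range_succ, sum_range_succ, sum_range_one]
  unfold us
  simp only [h0, h1, h2]
  omega

/-- The flower snark has no closed walk which visits all vertices and uses no edge twice. -/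
theorem no_walk {t m : ℕ} (ht : t % 2 = 1) (h3 : 3 ≤ t) (b : ℕ → ℕ)
    (_hb : ∀ i ≤ m, b i < 4 * t) (hper : b m = b 0)
    (hstep : ∀ i < m, b i = b (i + 1) ∨ fadj t (b i) (b (i + 1)))
    (honce : ∀ i j, i < j → j < m → b i ≠ b (i + 1) →
      ¬ ((b i = b j ∧ b (i + 1) = b (j + 1)) ∨ (b i = b (j + 1) ∧ b (i + 1) = b j)))
    (hsurj : ∀ u < 4 * t, ∃ i < m, b i = u) : False := by
  set r : ℕ → ℕ → ℕ := fun i x => us b m (4 * i + x) (rt t i x) with hrdef
  set g : ℕ → ℕ → ℕ := fun i x => us b m (4 * i + x) (4 * i + 3) with hgdef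
  have hr : ∀ i x, r i x ≤ 1 := fun i x => us_le _ _ _ _
  have hg : ∀ i x, g i x ≤ 1 := fun i x => us_le _ _ _ _
  have adjR : ∀ i x, i < t → x < 3 → fadj t (4 * i + x) (rt t i x) := by
    intro i x hi hx
    unfold rt
    by_cases c : i + 1 < t
    · rw [if_pos c]
      have := fadj_step (T := t) (a := 4 * i + x) (by omega) (by omega)
      rwa [show 4 * (i + 1) + x = 4 * i + x + 4 by ring]
    · rw [if_neg c]
      have hs := sw_lt3 hx
      refine Or.inl ⟨by omega, by omega, Or.inr (Or.inr ⟨by omega, by omega, ?_⟩)⟩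
      unfold sw; split_ifs <;> omega
  have adjC : ∀ i x, i < t → x < 3 → fadj t (4 * i + x) (4 * i + 3) := fun i x hi hx =>
    fadj_claw (by omega) (by omega) (by omega) (by omega)
  have portR : ∀ i x, i < t → x < 3 → port t (4 * i + x) (rt t i x) = 0 := by
    intro i x hi hx
    have hs := sw_lt3 hx
    have hw : (rt t i x) / 4 = (if i + 1 < t then i + 1 else 0) := by
      unfold rt; split_ifs <;> omega
    have e1 : (4 * i + x) / 4 = i := by omega
    unfold port
    rw [hw, e1]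
    by_cases c : i + 1 < t
    · simp only [if_pos c]
      rw [if_neg (by omega), if_pos (Or.inl trivial)]
    · simp only [if_neg c]
      rw [if_neg (by omega), if_pos (Or.inr ⟨by omega, trivial⟩)]
  have portL : ∀ i x, i < t → x < 3 → port t (rt t i x) (4 * i + x) = 1 := by
    intro i x hi hx
    have hs := sw_lt3 hx
    have hw : (rt t i x) / 4 = (if i + 1 < t then i + 1 else 0) := by
      unfold rt; split_ifs <;> omega
    have e1 : (4 * i + x) / 4 = i := by omega
    unfold port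
    rw [hw, e1]
    by_cases c : i + 1 < t
    · simp only [if_pos c]
      rw [if_neg (by omega), if_neg (by omega)]
    · simp only [if_neg c]
      rw [if_neg (by omega), if_neg (by omega)]
  have portC : ∀ i x, i < t → x < 3 → port t (4 * i + x) (4 * i + 3) = 2 := by
    intro i x hi hx
    unfold port
    rw [if_pos (by omega), if_neg (by omega)]
  have portC' : ∀ i x, i < t → x < 3 → port t (4 * i + 3) (4 * i + x) = x := by
    intro i x hi hx
    unfold port
    rw [if_pos (by omega), if_pos (by omega)]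
    omega
  -- centres
  have hC : ∀ i, i < t → g i 0 + g i 1 + g i 2 = 2 := by
    intro i hi
    have := deg_two h3 b hper hstep honce hsurj (u := 4 * i + 3) (w0 := 4 * i + 0)
      (w1 := 4 * i + 1) (w2 := 4 * i + 2) (by omega)
      (fadj_symm (adjC i 0 hi (by omega))) (fadj_symm (adjC i 1 hi (by omega)))
      (fadj_symm (adjC i 2 hi (by omega))) (portC' i 0 hi (by omega)) (portC' i 1 hi (by omega))
      (portC' i 2 hi (by omega))
    simp only [hgdef]
    rw [us_symm b m (4 * i + 0), us_symm b m (4 * i + 1), us_symm b m (4 * i + 2)]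
    exact this
  -- left neighbours
  have left : ∀ i x, i < t → x < 3 → ∃ i' x', i' < t ∧ x' < 3 ∧ rt t i' x' = 4 * i + x ∧
      lf t r i x = r i' x' := by
    intro i x hi hx
    by_cases c : i = 0
    · refine ⟨t - 1, sw x, by omega, sw_lt3 hx, ?_, ?_⟩
      · unfold rt; rw [if_neg (by omega), sw_sw]; omega
      · unfold lf; rw [if_pos c]
    · refine ⟨i - 1, x, by omega, hx, ?_, ?_⟩
      · unfold rt; rw [if_pos (by omega)]; omega
      · unfold lf; rw [if_neg c]
  have hV : ∀ i x, i < t → x < 3 → r i x + lf t r i x + g i x = 2 := by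
    intro i x hi hx
    obtain ⟨i', x', hi', hx', hrt, hlf⟩ := left i x hi hx
    have a1 : fadj t (4 * i + x) (4 * i' + x') := by
      have := fadj_symm (adjR i' x' hi' hx')
      rwa [hrt] at this
    have p1 : port t (4 * i + x) (4 * i' + x') = 1 := by
      have := portL i' x' hi' hx'
      rwa [hrt] at this
    have := deg_two h3 b hper hstep honce hsurj (u := 4 * i + x) (w0 := rt t i x)
      (w1 := 4 * i' + x') (w2 := 4 * i + 3) (by omega) (adjR i x hi hx) a1 (adjC i x hi hx)
      (portR i x hi hx) p1 (portC i x hi hx)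
    rw [hlf]
    simp only [hrdef, hgdef]
    rw [hrt, us_symm b m (4 * i' + x')]
    exact this
  have h2 := sum_two ht hV hC
  -- the invariant is constant
  have hfa : ∀ u w, fadj0 t u w → Us b m u w → iv t r u = iv t r w := by
    intro u w huw hUs
    obtain ⟨hu, hw, h⟩ := huw
    have eu : u = 4 * (u / 4) + u % 4 := by omega
    rcases h with ⟨e1, e2, e3⟩ | ⟨e1, e2, e3⟩ | ⟨e1, e2, e3⟩
    · have ew : w = 4 * (u / 4) + 3 := by omega
      have hgx : g (u / 4) (u % 4) = 1 := by
        simp only [hgdef]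
        rw [← eu, ← ew]
        unfold us; rw [if_pos hUs]
      have := iv_centre hr hV h2 (i := u / 4) (x := u % 4) (by omega) e2 hgx
      rwa [← eu, ← ew] at this
    · have ew : w = rt t (u / 4) (u % 4) := by
        unfold rt; rw [if_pos (by omega)]; omega
      have hrx : r (u / 4) (u % 4) = 1 := by
        simp only [hrdef]
        rw [← eu, ← ew]
        unfold us; rw [if_pos hUs]
      have := iv_right ht hr hg hV h2 (i := u / 4) (x := u % 4) (by omega) e2 hrx
      rwa [← eu, ← ew] at this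
    · have hx3 : u % 4 < 3 := by omega
      have ew : w = rt t (u / 4) (u % 4) := by
        unfold rt; rw [if_neg (by omega)]
        unfold sw; split_ifs <;> omega
      have hrx : r (u / 4) (u % 4) = 1 := by
        simp only [hrdef]
        rw [← eu, ← ew]
        unfold us; rw [if_pos hUs]
      have := iv_right ht hr hg hV h2 (i := u / 4) (x := u % 4) (by omega) hx3 hrx
      rwa [← eu, ← ew] at this
  have hconst : ∀ i, i ≤ m → iv t r (b i) = iv t r (b 0) := by
    intro i
    induction i with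
    | zero => intro _; rfl
    | succ i ih =>
      intro hi
      rw [← ih (by omega)]
      rcases hstep i (by omega) with h | h
      · rw [← h]
      · rcases h with h | h
        · exact (hfa _ _ h ⟨i, by omega, Or.inl ⟨rfl, rfl⟩⟩).symm
        · exact hfa _ _ h ⟨i, by omega, Or.inr ⟨rfl, rfl⟩⟩
  obtain ⟨x, hx, hne⟩ := iv_diff (by omega) hr hg hV h2
  obtain ⟨i, hi, hix⟩ := hsurj x (by omega)
  obtain ⟨j, hj, hj3⟩ := hsurj 3 (by omega)
  apply hne
  rw [← hix, ← hj3, hconst i hi.le, hconst j hj.le]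

end Pool.Agent.KS6_56.Snark
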