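import Mathlib
import Pool.Agent.KS6_67.Sat.Win
import Pool.Agent.KS6_67.Sat.Port
import Pool.Agent.KS6_56.Snark.Core
import Pool.Agent.KS6_56.Snark.NoWalk
import Pool.Agent.KS6_56.Snark.ArrD

set_option autoImplicit false

namespace Pool.Agent.KS6_56.Snark

open Pool.Agent.KS6_67.Sat Finset

/-! ### Intervals -/

lemma divmod_iff {K v u lo hi : ℕ} (hhi : hi ≤ K) :
    (v / K = u ∧ lo ≤ v % K ∧ v % K < hi) ↔ (u * K + lo ≤ v ∧ v < u * K + hi) := by
  rcases Nat.eq_zero_or_pos K with hK | hK
  · subst hK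
    constructor
    · rintro ⟨_, _, h⟩; omega
    · rintro ⟨h1, h2⟩; omega
  constructor
  · rintro ⟨rfl, h1, h2⟩
    have := Nat.div_add_mod v K
    have e : K * (v / K) = v / K * K := Nat.mul_comm _ _
    omega
  · rintro ⟨h1, h2⟩
    have hdiv : v / K = u := by
      apply Nat.div_eq_of_lt_le
      · omega
      · have : (u + 1) * K = u * K + K := by ring
        omega
    have := Nat.div_add_mod v K
    rw [hdiv] at this
    have e : K * u = u * K := Nat.mul_comm _ _
    omega

lemma card_Ico_fin {n A B : ℕ} (hB : B ≤ n) :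
    (univ.filter (fun v : Fin n => A ≤ (v : ℕ) ∧ (v : ℕ) < B)).card = B - A := by
  have : univ.filter (fun v : Fin n => A ≤ (v : ℕ) ∧ (v : ℕ) < B) =
      (Finset.Ico A B).attachFin (by intro p hp; rw [mem_Ico] at hp; omega) := by
    ext v; simp
  rw [this, card_attachFin, Nat.card_Ico]

lemma card_Ico_fin_le {n A B : ℕ} :
    (univ.filter (fun v : Fin n => A ≤ (v : ℕ) ∧ (v : ℕ) < B)).card ≤ B - A := by
  have h : (univ.filter (fun v : Fin n => A ≤ (v : ℕ) ∧ (v : ℕ) < B)) ⊆
      (univ.filter (fun v : Fin n => A ≤ (v : ℕ) ∧ (v : ℕ) < min B n)) := by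
    intro v hv
    rw [mem_filter] at hv ⊢
    have := v.2
    exact ⟨mem_univ _, hv.2.1, by omega⟩
  refine (card_le_card h).trans ?_
  rw [card_Ico_fin (min_le_right _ _)]
  omega

/-! ### Blobs and doors -/

/-- The blob of a vertex. -/
def beta (t K x : ℕ) : ℕ := if x / K < 4 * t then x / K else 0

/-- The door of blob `u` towards blob `w`. -/
def door (n d t u w : ℕ) : Finset (Fin n) :=
  univ.filter (fun v : Fin n => (v : ℕ) / (4 * d) = u ∧ port t u w * d ≤ (v : ℕ) % (4 * d) ∧
    (v : ℕ) % (4 * d) < port t u w * d + d)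

lemma beta_lt {t K x : ℕ} (ht : 0 < t) : beta t K x < 4 * t := by
  unfold beta; split_ifs <;> omega

lemma mem_door {n d t u w : ℕ} {v : Fin n} : v ∈ door n d t u w ↔ (v : ℕ) / (4 * d) = u ∧
    port t u w * d ≤ (v : ℕ) % (4 * d) ∧ (v : ℕ) % (4 * d) < port t u w * d + d := by
  unfold door; simp

lemma beta_door {n d t u w : ℕ} {v : Fin n} (hu : u < 4 * t) (h : v ∈ door n d t u w) :
    beta t (4 * d) v = u := by
  rw [mem_door] at h
  unfold beta
  rw [h.1, if_pos hu]

lemma card_door {n d t u w : ℕ} (hn : 4 * t * (4 * d) ≤ n) (h : fadj t u w) :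
    (door n d t u w).card = d := by
  have hu := (fadj_lt h).1
  have hp := port_lt h
  have hp' : port t u w * d + d ≤ 4 * d := by
    have : port t u w * d ≤ 2 * d := Nat.mul_le_mul_right d (by omega)
    omega
  have : door n d t u w = univ.filter (fun v : Fin n => u * (4 * d) + port t u w * d ≤ (v : ℕ) ∧
      (v : ℕ) < u * (4 * d) + (port t u w * d + d)) := by
    unfold door
    refine filter_congr ?_
    intro v _
    exact divmod_iff hp'
  have hun : (u + 1) * (4 * d) ≤ 4 * t * (4 * d) := Nat.mul_le_mul_right _ (by omega)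
  have e : (u + 1) * (4 * d) = u * (4 * d) + 4 * d := by ring
  rw [this, card_Ico_fin (by omega)]
  omega

lemma door_disj {n d t u w w' : ℕ} (ht : 3 ≤ t) (h : fadj t u w) (h' : fadj t u w')
    (hne : w ≠ w') : Disjoint (door n d t u w) (door n d t u w') := by
  rw [Finset.disjoint_left]
  intro v hv hv'
  rw [mem_door] at hv hv'
  apply hne
  apply port_inj ht h h'
  obtain ⟨-, a1, a2⟩ := hv
  obtain ⟨-, b1, b2⟩ := hv'
  have c1 : port t u w * d < (port t u w' + 1) * d := by
    have : (port t u w' + 1) * d = port t u w' * d + d := by ring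
    omega
  have c2 : port t u w' * d < (port t u w + 1) * d := by
    have : (port t u w + 1) * d = port t u w * d + d := by ring
    omega
  have c3 := Nat.lt_of_mul_lt_mul_right c1
  have c4 := Nat.lt_of_mul_lt_mul_right c2
  omega

/-- The door through which a vertex lies is unique. -/
lemma exists_target {n d t : ℕ} (ht : 3 ≤ t) (v : Fin n) (u : ℕ) :
    ∃ x, ∀ w, fadj t u w → v ∈ door n d t u w → w = x := by
  by_cases h : ∃ w, fadj t u w ∧ v ∈ door n d t u w
  · obtain ⟨x, hx1, hx2⟩ := h
    refine ⟨x, ?_⟩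
    intro w hw1 hw2
    by_contra hne
    exact Finset.disjoint_left.1 (door_disj ht hw1 hx1 hne) hw2 hx2
  · push Not at h
    exact ⟨0, fun w hw1 hw2 => absurd hw2 (h w hw1)⟩

/-- The sizes of the blobs. -/
lemma card_blob {n m d t u : ℕ} (hd : 1 ≤ d) (hn : n = m * d) (ht : 0 < t)
    (htn : 4 * t * (4 * d) ≤ n) (hu : u < 4 * t) :
    d ∣ (univ.filter (fun v : Fin n => beta t (4 * d) v = u)).card ∧
    4 * d ≤ (univ.filter (fun v : Fin n => beta t (4 * d) v = u)).card := by
  have hK : 0 < 4 * d := by omega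
  have hint : (univ.filter (fun v : Fin n => (v : ℕ) / (4 * d) = u)).card = 4 * d := by
    have : univ.filter (fun v : Fin n => (v : ℕ) / (4 * d) = u) =
        univ.filter (fun v : Fin n => u * (4 * d) + 0 ≤ (v : ℕ) ∧
          (v : ℕ) < u * (4 * d) + 4 * d) := by
      refine filter_congr ?_
      intro v _
      rw [← divmod_iff le_rfl]
      have := Nat.mod_lt (v : ℕ) hK
      constructor
      · intro h; exact ⟨h, by omega, this⟩
      · intro h; exact h.1
    have hun : (u + 1) * (4 * d) ≤ 4 * t * (4 * d) := Nat.mul_le_mul_right _ (by omega)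
    have e : (u + 1) * (4 * d) = u * (4 * d) + 4 * d := by ring
    rw [this, card_Ico_fin (by omega)]
    omega
  by_cases h0 : u = 0
  · subst h0
    have hsplit : univ.filter (fun v : Fin n => beta t (4 * d) v = 0) =
        univ.filter (fun v : Fin n => (v : ℕ) / (4 * d) = 0) ∪
        univ.filter (fun v : Fin n => 4 * t * (4 * d) ≤ (v : ℕ) ∧ (v : ℕ) < n) := by
      ext v
      simp only [mem_filter, mem_univ, true_and, mem_union]
      have hv := v.2
      unfold beta
      have hiff : (v : ℕ) / (4 * d) < 4 * t ↔ (v : ℕ) < 4 * t * (4 * d) :=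
        Nat.div_lt_iff_lt_mul hK
      constructor
      · intro h
        by_cases c : (v : ℕ) / (4 * d) < 4 * t
        · rw [if_pos c] at h; exact Or.inl h
        · right; rw [hiff] at c; exact ⟨by omega, hv⟩
      · rintro (h | h)
        · rw [h]; simp
        · rw [if_neg]
          rw [hiff]; omega
    rw [hsplit, card_union_of_disjoint, hint, card_Ico_fin le_rfl]
    · refine ⟨?_, by omega⟩
      have e : 4 * d + (n - 4 * t * (4 * d)) = (4 + m - 16 * t) * d := by
        have h1 : 16 * t ≤ m := by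
          have : 16 * t * d ≤ m * d := by rw [← hn]; calc
            16 * t * d = 4 * t * (4 * d) := by ring
            _ ≤ n := htn
          exact Nat.le_of_mul_le_mul_right this (by omega)
        obtain ⟨r, hr⟩ := Nat.exists_eq_add_of_le h1
        have h2 : 4 + m - 16 * t = 4 + r := by omega
        have h3 : n - 4 * t * (4 * d) = r * d := by
          rw [hn, hr]
          have : (16 * t + r) * d = 4 * t * (4 * d) + r * d := by ring
          omega
        rw [h2, h3]; ring
      rw [e]; exact dvd_mul_left _ _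
    · rw [Finset.disjoint_left]
      intro v hv hv'
      rw [mem_filter] at hv hv'
      have : (v : ℕ) < 4 * d := by
        have := (Nat.div_eq_zero_iff).1 hv.2
        omega
      have h2 : 1 * (4 * d) ≤ 4 * t * (4 * d) := Nat.mul_le_mul_right _ (by omega)
      omega
  · have : univ.filter (fun v : Fin n => beta t (4 * d) v = u) =
        univ.filter (fun v : Fin n => (v : ℕ) / (4 * d) = u) := by
      refine filter_congr ?_
      intro v _
      unfold beta
      split_ifs with c
      · rfl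
      · constructor
        · intro h; omega
        · intro h; omega
    rw [this, hint]
    exact ⟨dvd_mul_left _ _, le_rfl⟩

/-- Few vertices are not far from a given one. -/
lemma card_near {n d t a : ℕ} (hd : 1 ≤ d) (ht : 3 ≤ t) (ha : a < 4 * t)
    (hn2 : n < 4 * t * (4 * d) + 32 * d) :
    (univ.filter (fun v : Fin n => ¬ far t a (beta t (4 * d) v))).card ≤ 176 * d := by
  have hK : 0 < 4 * d := by omega
  obtain ⟨K, hKdef⟩ : ∃ K, K = 4 * d := ⟨_, rfl⟩
  have hsub : univ.filter (fun v : Fin n => ¬ far t a (beta t (4 * d) v)) ⊆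
      (univ.filter (fun v : Fin n => 0 ≤ (v : ℕ) ∧ (v : ℕ) < 8 * K)) ∪
      ((univ.filter (fun v : Fin n => 4 * (t - 2) * K ≤ (v : ℕ) ∧
        (v : ℕ) < 4 * t * K + 8 * K)) ∪
      (univ.filter (fun v : Fin n => 4 * (a / 4 - 2) * K ≤ (v : ℕ) ∧
        (v : ℕ) < 4 * (a / 4 + 3) * K))) := by
    intro v hv
    rw [mem_filter] at hv
    have hvn := v.2
    simp only [mem_union, mem_filter, mem_univ, true_and]
    have hnf := hv.2
    rw [← hKdef] at hnf
    unfold beta at hnf
    by_cases c : (v : ℕ) / K < 4 * t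
    · rw [if_pos c] at hnf
      obtain ⟨x, hx⟩ : ∃ x, x = (v : ℕ) / K := ⟨_, rfl⟩
      rw [← hx] at hnf c
      have hx1 : x * K ≤ v := by rw [hx]; exact Nat.div_mul_le_self _ _
      have hx2 : (v : ℕ) < (x + 1) * K := by
        rw [hx]
        have := Nat.lt_div_mul_add (a := (v : ℕ)) (b := K) (by omega)
        rw [add_mul, one_mul]; exact this
      unfold far at hnf
      have hcase : (a / 4 < x / 4 + 3 ∧ x / 4 < a / 4 + 3) ∨ x / 4 + t < a / 4 + 3 ∨
          a / 4 + t < x / 4 + 3 := by omega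
      rcases hcase with h | h | h
      · right; right
        have e1 : 4 * (a / 4 - 2) * K ≤ x * K := Nat.mul_le_mul_right K (by omega)
        have e2 : (x + 1) * K ≤ 4 * (a / 4 + 3) * K := Nat.mul_le_mul_right K (by omega)
        exact ⟨by omega, by omega⟩
      · left
        have e2 : (x + 1) * K ≤ 8 * K := Nat.mul_le_mul_right K (by omega)
        exact ⟨by omega, by omega⟩
      · right; left
        have e1 : 4 * (t - 2) * K ≤ x * K := Nat.mul_le_mul_right K (by omega)
        exact ⟨by omega, by rw [hKdef]; omega⟩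
    · right; left
      have e0 : ¬ (v : ℕ) < 4 * t * K := by
        rw [← Nat.div_lt_iff_lt_mul (by omega)]; exact c
      have e1 : 4 * (t - 2) * K ≤ 4 * t * K := Nat.mul_le_mul_right K (by omega)
      exact ⟨by omega, by rw [hKdef]; omega⟩
  refine (card_le_card hsub).trans ((card_union_le _ _).trans ?_)
  refine (Nat.add_le_add card_Ico_fin_le ((card_union_le _ _).trans
    (Nat.add_le_add card_Ico_fin_le card_Ico_fin_le))).trans ?_
  have e1 : 4 * t * K + 8 * K - 4 * (t - 2) * K ≤ 16 * K := by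
    have : 4 * t * K = 4 * (t - 2) * K + 8 * K := by
      obtain ⟨s, rfl⟩ : ∃ s, t = s + 2 := ⟨t - 2, by omega⟩
      rw [Nat.add_sub_cancel]; ring
    omega
  have e2 : 4 * (a / 4 + 3) * K - 4 * (a / 4 - 2) * K ≤ 20 * K := by
    have : 4 * (a / 4 + 3) * K ≤ 4 * (a / 4 - 2) * K + 20 * K := by
      rw [← add_mul]
      exact Nat.mul_le_mul_right K (by omega)
    omega
  omega

/-! ### The hypergraphs -/

open Classical in
/-- The sparse non-Hamiltonian hypergraph. -/
noncomputable def GD (n d t : ℕ) : Finset (Finset (Fin n)) :=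
  ((univ : Finset (Fin n)).powersetCard (d + 1)).filter (fun W =>
    (∃ u, ∀ v ∈ W, beta t (4 * d) v = u) ∨
    (∃ u w, fadj t u w ∧ ∀ v ∈ W, v ∈ door n d t u w ∨ v ∈ door n d t w u))

open Classical in
/-- The exceptional family. -/
noncomputable def BD (n d t : ℕ) : Finset (Finset (Fin n)) :=
  ((univ : Finset (Fin n)).powersetCard (d + 1)).filter (fun W =>
    ∀ x ∈ W, ∀ y ∈ W, ¬ far t (beta t (4 * d) x) (beta t (4 * d) y))

lemma mem_GD {n d t : ℕ} {W : Finset (Fin n)} : W ∈ GD n d t ↔ W.card = d + 1 ∧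
    ((∃ u, ∀ v ∈ W, beta t (4 * d) v = u) ∨
    (∃ u w, fadj t u w ∧ ∀ v ∈ W, v ∈ door n d t u w ∨ v ∈ door n d t w u)) := by
  classical
  unfold GD
  rw [mem_filter, mem_powersetCard]
  simp

lemma mem_BD {n d t : ℕ} {W : Finset (Fin n)} : W ∈ BD n d t ↔ W.card = d + 1 ∧
    ∀ x ∈ W, ∀ y ∈ W, ¬ far t (beta t (4 * d) x) (beta t (4 * d) y) := by
  unfold BD
  rw [mem_filter, mem_powersetCard]
  simp

lemma GD_sub_BD (n d t : ℕ) : GD n d t ⊆ BD n d t := by
  intro W hW
  rw [mem_GD] at hW
  rw [mem_BD]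
  refine ⟨hW.1, ?_⟩
  intro x hx y hy hfar
  rcases hW.2 with ⟨u, hu⟩ | ⟨u, w, huw, h⟩
  · exact far_ne hfar (by rw [hu x hx, hu y hy])
  · have hlt := fadj_lt huw
    rcases h x hx with hx' | hx' <;> rcases h y hy with hy' | hy'
    · exact far_ne hfar (by rw [beta_door hlt.1 hx', beta_door hlt.1 hy'])
    · rw [beta_door hlt.1 hx', beta_door hlt.2 hy'] at hfar
      exact far_not_adj hfar huw
    · rw [beta_door hlt.2 hx', beta_door hlt.1 hy'] at hfar
      exact far_not_adj hfar (Pool.Agent.KS6_67.Sat.fadj_symm huw)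
    · exact far_ne hfar (by rw [beta_door hlt.2 hx', beta_door hlt.2 hy'])

lemma card_BD {n d t : ℕ} (hd : 1 ≤ d) (ht : 3 ≤ t)
    (hn2 : n < 4 * t * (4 * d) + 32 * d) : (BD n d t).card ≤ 2 ^ (176 * d) * n := by
  classical
  have hsub : BD n d t ⊆ (univ : Finset (Fin n)).biUnion (fun v =>
      (univ.filter (fun y : Fin n => ¬ far t (beta t (4 * d) v) (beta t (4 * d) y))).powerset) := by
    intro W hW
    rw [mem_BD] at hW
    have hne : W.Nonempty := by rw [← card_pos]; omega
    obtain ⟨x, hx⟩ := hne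
    rw [mem_biUnion]
    refine ⟨x, mem_univ _, ?_⟩
    rw [mem_powerset]
    intro y hy
    rw [mem_filter]
    exact ⟨mem_univ _, hW.2 x hx y hy⟩
  refine (card_le_card hsub).trans (card_biUnion_le.trans ?_)
  have : ∀ v ∈ (univ : Finset (Fin n)), ((univ.filter (fun y : Fin n =>
      ¬ far t (beta t (4 * d) v) (beta t (4 * d) y))).powerset).card ≤ 2 ^ (176 * d) := by
    intro v _
    rw [card_powerset]
    exact Nat.pow_le_pow_right (by omega) (card_near hd ht (beta_lt (by omega)) hn2)
  refine (sum_le_sum this).trans ?_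
  rw [sum_const, card_univ, Fintype.card_fin, smul_eq_mul, mul_comm]

/-! ### Not Hamiltonian -/

lemma not_ham_GD {n m d t : ℕ} (hd : 1 ≤ d) (hn : n = m * d) (ht : t % 2 = 1) (h7 : 7 ≤ t)
    (htn : 4 * t * (4 * d) ≤ n) : ¬ Ham n (d + 1) d (GD n d t) := by
  rintro ⟨σ, hσ⟩
  have hK : 0 < 4 * d := by omega
  have h16 : 16 * t ≤ m := by
    have : 16 * t * d ≤ m * d := by
      rw [← hn]
      calc 16 * t * d = 4 * t * (4 * d) := by ring
        _ ≤ n := htn
    exact Nat.le_of_mul_le_mul_right this (by omega)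
  have hmn : m ≤ n := by rw [hn]; exact Nat.le_mul_of_pos_right m (by omega)
  have hn0 : 0 < n := by omega
  have hnd : n / d = m := by rw [hn]; exact Nat.mul_div_cancel m (by omega)
  rw [hnd] at hσ
  have hsp : ∀ s, s + 2 ≤ m → s * d + (d + 1) ≤ n := by
    intro s hs
    have : (s + 2) * d ≤ m * d := Nat.mul_le_mul_right d hs
    have e : (s + 2) * d = s * d + 2 * d := by ring
    omega
  set xv : ℕ → Fin n := fun p => σ.symm ⟨p % n, Nat.mod_lt _ hn0⟩ with hxv
  have hxw : ∀ i j, j < d + 1 → xv (i * d + j) ∈ win n (d + 1) d σ i := by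
    intro i j hj
    rw [mem_win]
    exact ⟨j, hj, by simp [hxv]⟩
  have hx0 : ∀ i, xv (i * d) ∈ win n (d + 1) d σ i := by
    intro i
    have := hxw i 0 (by omega)
    rwa [add_zero] at this
  have hx1 : ∀ i, xv ((i + 1) * d) ∈ win n (d + 1) d σ i := by
    intro i
    have := hxw i d (by omega)
    rwa [show i * d + d = (i + 1) * d by ring] at this
  set b : ℕ → ℕ := fun i => beta t (4 * d) (xv (i * d)) with hb
  have hG : ∀ i < m, (∃ u, ∀ v ∈ win n (d + 1) d σ i, beta t (4 * d) v = u) ∨
    (∃ u w, fadj t u w ∧ ∀ v ∈ win n (d + 1) d σ i, v ∈ door n d t u w ∨ v ∈ door n d t w u) :=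
    fun i hi => (mem_GD.1 (hσ i hi)).2
  -- the changing windows
  have hchg : ∀ i < m, b i ≠ b (i + 1) → fadj t (b i) (b (i + 1)) ∧
      ∀ v ∈ win n (d + 1) d σ i, v ∈ door n d t (b i) (b (i + 1)) ∨
        v ∈ door n d t (b (i + 1)) (b i) := by
    intro i hi hne
    rcases hG i hi with ⟨u, hu⟩ | ⟨u, w, huw, h⟩
    · exact absurd ((hu _ (hx0 i)).trans (hu _ (hx1 i)).symm) hne
    · have hlt := fadj_lt huw
      rcases h _ (hx0 i) with h0 | h0 <;> rcases h _ (hx1 i) with h1 | h1
      · exact absurd ((beta_door hlt.1 h0).trans (beta_door hlt.1 h1).symm) hne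
      · have e0 : b i = u := beta_door hlt.1 h0
        have e1 : b (i + 1) = w := beta_door hlt.2 h1
        rw [e0, e1]
        exact ⟨huw, h⟩
      · have e0 : b i = w := beta_door hlt.2 h0
        have e1 : b (i + 1) = u := beta_door hlt.1 h1
        rw [e0, e1]
        exact ⟨Pool.Agent.KS6_67.Sat.fadj_symm huw, fun v hv => (h v hv).symm⟩
      · exact absurd ((beta_door hlt.2 h0).trans (beta_door hlt.2 h1).symm) hne
  refine no_walk (t := t) (m := m) ht (by omega) b ?_ ?_ ?_ ?_ ?_
  · intro i _; exact beta_lt (by omega)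
  · simp only [hb, hxv]
    have : (⟨m * d % n, Nat.mod_lt _ hn0⟩ : Fin n) = ⟨0 * d % n, Nat.mod_lt _ hn0⟩ := by
      apply Fin.ext
      simp only
      rw [← hn]; simp
    rw [this]
  · intro i hi
    by_cases h : b i = b (i + 1)
    · exact Or.inl h
    · exact Or.inr (hchg i hi h).1
  · intro i j hij hjm hne hsame
    obtain ⟨hadj, hi⟩ := hchg i (by omega) hne
    have hne' : b j ≠ b (j + 1) := by
      rcases hsame with ⟨e1, e2⟩ | ⟨e1, e2⟩
      · rw [← e1, ← e2]; exact hne
      · rw [← e1, ← e2]; exact hne.symm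
    obtain ⟨hadj', hj⟩ := hchg j hjm hne'
    have hj2 : ∀ v ∈ win n (d + 1) d σ j, v ∈ door n d t (b i) (b (i + 1)) ∨
        v ∈ door n d t (b (i + 1)) (b i) := by
      intro v hv
      rcases hsame with ⟨e1, e2⟩ | ⟨e1, e2⟩
      · rw [e1, e2]; exact hj v hv
      · rw [e1, e2]; exact (hj v hv).symm
    have hsubu : win n (d + 1) d σ i ∪ win n (d + 1) d σ j ⊆
        door n d t (b i) (b (i + 1)) ∪ door n d t (b (i + 1)) (b i) := by
      intro v hv
      rw [mem_union] at hv ⊢
      rcases hv with hv | hv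
      · exact hi v hv
      · exact hj2 v hv
    have h2 := (card_le_card hsubu).trans (card_union_le _ _)
    rw [card_door htn hadj, card_door htn (Pool.Agent.KS6_67.Sat.fadj_symm hadj)] at h2
    have h3 := card_union_add_card_inter (win n (d + 1) d σ i) (win n (d + 1) d σ j)
    have hkn : d + 1 ≤ n := by have := hsp 0 (by omega); omega
    rw [card_win σ i hkn, card_win σ j hkn] at h3
    have h4 : (win n (d + 1) d σ i ∩ win n (d + 1) d σ j).card ≤ 1 := by
      rcases Nat.lt_or_ge (j - i) (m - 1) with hlt | hge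
      · have := inter_le (k := d + 1) (d := d) σ i (j - i) hn0 (hsp _ (by omega))
        rw [show i + (j - i) = j by omega] at this
        have e : 1 * d ≤ (j - i) * d := Nat.mul_le_mul_right d (by omega)
        omega
      · have hi0 : i = 0 := by omega
        have := inter_le (k := d + 1) (d := d) σ j 1 hn0 (hsp 1 (by omega))
        rw [show j + 1 = 0 + m by omega, win_add_period hn, ← hi0, inter_comm] at this
        omega
    omega
  · intro u hu
    have hv0n : u * (4 * d) + 3 * d < n := by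
      have hun : (u + 1) * (4 * d) ≤ 4 * t * (4 * d) := Nat.mul_le_mul_right _ (by omega)
      have e : (u + 1) * (4 * d) = u * (4 * d) + 4 * d := by ring
      omega
    set v0 : Fin n := ⟨u * (4 * d) + 3 * d, hv0n⟩ with hv0
    have hdm : (v0 : ℕ) / (4 * d) = u ∧ 3 * d ≤ (v0 : ℕ) % (4 * d) ∧
        (v0 : ℕ) % (4 * d) < 4 * d := by
      rw [divmod_iff le_rfl]
      simp only [hv0]
      omega
    have hbv : beta t (4 * d) v0 = u := by
      unfold beta; rw [hdm.1, if_pos hu]
    set p : ℕ := ((σ v0 : Fin n) : ℕ) with hp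
    have hpn : p < n := (σ v0).2
    have hdiv : p / d < m := by
      rw [Nat.div_lt_iff_lt_mul (by omega), ← hn]; exact hpn
    have hpm := Nat.div_add_mod p d
    have hmem : v0 ∈ win n (d + 1) d σ (p / d) := by
      rw [mem_win]
      refine ⟨p % d, by have := Nat.mod_lt p (show 0 < d by omega); omega, ?_⟩
      have e : p / d * d + p % d = p := by rw [Nat.mul_comm]; exact hpm
      rw [e, Nat.mod_eq_of_lt hpn]
    refine ⟨p / d, hdiv, ?_⟩
    have nodoor : ∀ x y, fadj t x y → v0 ∉ door n d t x y := by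
      intro x y hxy hmem
      rw [mem_door] at hmem
      obtain ⟨-, a1, a2⟩ := hmem
      have hpl := port_lt hxy
      have : port t x y * d + d ≤ 3 * d := by
        have : (port t x y + 1) * d ≤ 3 * d := Nat.mul_le_mul_right d (by omega)
        have e : (port t x y + 1) * d = port t x y * d + d := by ring
        omega
      omega
    rcases hG _ hdiv with ⟨u', hu'⟩ | ⟨u', w', huw, h⟩
    · have e1 := hu' _ (hx0 (p / d))
      have e2 := hu' _ hmem
      simp only [hb]
      rw [e1, ← e2, hbv]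
    · exfalso
      rcases h _ hmem with h' | h'
      · exact nodoor _ _ huw h'
      · exact nodoor _ _ (Pool.Agent.KS6_67.Sat.fadj_symm huw) h'

/-! ### The arrangement -/

lemma ham_insert_GD {n m d t : ℕ} (hd : 1 ≤ d) (hn : n = m * d) (ht : t % 2 = 1) (h7 : 7 ≤ t)
    (htn : 4 * t * (4 * d) ≤ n) (e : Finset (Fin n)) (he : e.card = d + 1)
    (heB : e ∉ BD n d t) : Ham n (d + 1) d (insert e (GD n d t)) := by
  classical
  have hK : 0 < 4 * d := by omega
  have h16 : 16 * t ≤ m := by
    have : 16 * t * d ≤ m * d := by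
      rw [← hn]
      calc 16 * t * d = 4 * t * (4 * d) := by ring
        _ ≤ n := htn
    exact Nat.le_of_mul_le_mul_right this (by omega)
  have hnd : n / d = m := by rw [hn]; exact Nat.mul_div_cancel m (by omega)
  have hkn : d + 1 ≤ n := by
    have : 2 * d ≤ m * d := Nat.mul_le_mul_right d (by omega)
    omega
  rw [mem_BD] at heB
  push Not at heB
  obtain ⟨b, hb, a, ha, hfar⟩ := heB he
  obtain ⟨x, hx⟩ := exists_target (n := n) (d := d) (t := t) (by omega) b (beta t (4 * d) b)
  obtain ⟨z, hz⟩ := exists_target (n := n) (d := d) (t := t) (by omega) a (beta t (4 * d) a)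
  obtain ⟨L, hL1, hL2, hL3, hL4, hL5, hL6, hL7⟩ := core_paths ht h7 (beta t (4 * d) b)
    (beta t (4 * d) a) (beta_lt (by omega)) (beta_lt (by omega)) hfar x z
  obtain ⟨M, hMdef⟩ : ∃ M, M = L.length := ⟨_, rfl⟩
  have hM : 2 ≤ M := by
    have h0 : (0 : ℕ) ∈ L := (hL4 0).2 (by omega)
    have h1 : (1 : ℕ) ∈ L := (hL4 1).2 (by omega)
    rw [hMdef]
    by_contra hc
    have : L.length = 0 ∨ L.length = 1 := by omega
    rcases this with h | h
    · rw [List.length_eq_zero_iff] at h
      rw [h] at h0; simp at h0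
    · rw [List.length_eq_one_iff] at h
      obtain ⟨y, rfl⟩ := h
      simp at h0 h1
      omega
  -- the sequence of blobs
  obtain ⟨w, hw⟩ : ∃ w : ℕ → ℕ, w = fun j => L.getD j 0 := ⟨_, rfl⟩
  have hwL : ∀ j (hj : j < L.length), w j = L[j] := by
    intro j hj
    rw [hw]; simp [hj]
  have hadj : ∀ j, j + 1 < M → fadj t (w j) (w (j + 1)) := by
    intro j hj
    rw [hwL j (by omega), hwL (j + 1) (by omega)]
    exact (List.isChain_iff_getElem.1 hL5) j (by omega)
  have hw0 : w 0 = beta t (4 * d) b := by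
    rw [hwL 0 (by omega)]
    rw [List.head?_eq_getElem?, List.getElem?_eq_getElem (by omega)] at hL1
    exact Option.some_injective _ hL1
  have hwM : w (M - 1) = beta t (4 * d) a := by
    rw [hwL (M - 1) (by omega)]
    rw [List.getLast?_eq_getElem?, List.getElem?_eq_getElem (by omega)] at hL2
    have := Option.some_injective _ hL2
    rw [← this]
    simp only [hMdef]
  have hw1 : w 1 ≠ x := by
    intro h
    apply hL6
    rw [List.getElem?_eq_getElem (by omega), ← hwL 1 (by omega), h]
  have hw2 : w (M - 2) ≠ z := by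
    intro h
    apply hL7
    rw [List.getElem?_reverse (by omega), List.getElem?_eq_getElem (by omega)]
    have := hwL (M - 2) (by omega)
    rw [h] at this
    rw [this]
    have e2 : L.length - 1 - 1 = M - 2 := by omega
    simp only [e2]
  -- indices
  obtain ⟨ix, hix⟩ : ∃ ix : Fin n → ℕ, ix = fun v : Fin n => L.idxOf (beta t (4 * d) (v : ℕ)) := ⟨_, rfl⟩
  have hbm : ∀ v : Fin n, beta t (4 * d) v ∈ L := fun v => (hL4 _).2 (beta_lt (by omega))
  have hixlt : ∀ v, ix v < M := by
    intro v
    rw [hix, hMdef]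
    exact List.idxOf_lt_length_iff.2 (hbm v)
  have hixiff : ∀ v j, j < M → (ix v = j ↔ beta t (4 * d) v = w j) := by
    intro v j hj
    rw [hwL j (by omega)]
    constructor
    · intro h
      have h1 : L.idxOf (beta t (4 * d) v) < L.length := List.idxOf_lt_length_iff.2 (hbm v)
      have h2 := List.getElem_idxOf h1
      rw [← h2]
      have h3 : L.idxOf (beta t (4 * d) v) = j := by rw [hix] at h; exact h
      simp only [h3]
    · intro h
      rw [hix]
      simp only
      rw [h]
      exact hL3.idxOf_getElem j (by omega)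
  have hfilt : ∀ j < M, univ.filter (fun v => ix v = j) =
      univ.filter (fun v : Fin n => beta t (4 * d) v = w j) := by
    intro j hj
    refine filter_congr ?_
    intro v _
    exact hixiff v j hj
  have hwlt : ∀ j < M, w j < 4 * t := by
    intro j hj
    rw [hwL j (by omega)]
    exact (hL4 _).1 (List.getElem_mem _)
  have hdoor : ∀ j < M, ∀ y, ∀ v ∈ door n d t (w j) y, ix v = j := by
    intro j hj y v hv
    rw [hixiff v j hj]
    exact beta_door (hwlt j hj) hv
  obtain ⟨σ, hσ0, hσ1⟩ := arrD hd hn hM hkn ix hixlt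
    (fun j hj => by rw [hfilt j hj]; exact (card_blob hd hn (by omega) htn (hwlt j hj)).1)
    (fun j hj => by rw [hfilt j hj]; exact (card_blob hd hn (by omega) htn (hwlt j hj)).2)
    e he a b ha hb ((hixiff a (M - 1) (by omega)).2 hwM.symm) ((hixiff b 0 (by omega)).2 hw0.symm)
    (fun j => door n d t (w j) (w (j + 1))) (fun j => door n d t (w j) (w (j - 1)))
    (fun j hj => ⟨hdoor j (by omega) _, card_door htn (hadj j hj)⟩)
    (fun j hj => ⟨hdoor (j + 1) hj _, by
      rw [Nat.add_sub_cancel]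
      exact card_door htn (Pool.Agent.KS6_67.Sat.fadj_symm (hadj j hj))⟩)
    (fun j hj => by
      rw [Nat.add_sub_cancel]
      refine door_disj (by omega) (Pool.Agent.KS6_67.Sat.fadj_symm (hadj j (by omega)))
        (hadj (j + 1) (by omega)) ?_
      rw [hwL j (by omega), hwL (j + 1 + 1) (by omega)]
      intro h
      have := (List.Nodup.getElem_inj_iff hL3).1 h
      omega)
    (by
      intro h
      have h1 := hadj 0 (by omega)
      rw [hw0] at h h1
      exact hw1 (hx _ h1 h))
    (by
      intro h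
      have e1 : M - 1 - 1 = M - 2 := by omega
      simp only [e1] at h
      have h1 := Pool.Agent.KS6_67.Sat.fadj_symm (hadj (M - 2) (by omega))
      rw [show M - 2 + 1 = M - 1 by omega] at h1
      rw [hwM] at h h1
      exact hw2 (hz _ h1 h))
  refine ⟨σ, ?_⟩
  rw [hnd]
  intro i hi
  rcases Nat.eq_zero_or_pos i with h0 | h0
  · rw [h0, hσ0]; exact mem_insert_self _ _
  · apply mem_insert_of_mem
    rw [mem_GD]
    refine ⟨card_win σ i hkn, ?_⟩
    rcases hσ1 i h0 hi with ⟨j, hj, h⟩ | ⟨j, hj, h⟩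
    · left
      exact ⟨w j, fun v hv => (hixiff v j hj).1 (h v hv)⟩
    · right
      refine ⟨w j, w (j + 1), hadj j hj, ?_⟩
      intro v hv
      have := h v hv
      rwa [Nat.add_sub_cancel] at this

/-- The case `l = 1`, `k = d + 1`. -/
theorem goodD (d : ℕ) (hd : 1 ≤ d) : Good (d + 1) 1 := by
  refine ⟨2 ^ (176 * d), 144 * d, ?_⟩
  intro n hn hdvd
  rw [Nat.add_sub_cancel] at hdvd ⊢
  obtain ⟨m, hm⟩ := hdvd
  have hnm : n = m * d := by rw [hm]; ring
  obtain ⟨q, hq⟩ : ∃ q, q = n / (16 * d) := ⟨_, rfl⟩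
  have hq1 : q * (16 * d) ≤ n := by rw [hq]; exact Nat.div_mul_le_self _ _
  have hq2 : n < q * (16 * d) + 16 * d := by
    rw [hq]; exact Nat.lt_div_mul_add (by omega)
  have hq9 : 9 ≤ q := by
    rw [hq, Nat.le_div_iff_mul_le (by omega)]; omega
  obtain ⟨t, ht, hqt⟩ : ∃ t, t % 2 = 1 ∧ (q = t ∨ q = t + 1) := by
    rcases Nat.even_or_odd' q with ⟨r, hr | hr⟩
    · exact ⟨q - 1, by omega, by omega⟩
    · exact ⟨q, by omega, by omega⟩
  have h7 : 7 ≤ t := by omega
  have htn : 4 * t * (4 * d) ≤ n := by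
    have : t * (16 * d) ≤ q * (16 * d) := Nat.mul_le_mul_right _ (by omega)
    have e : 4 * t * (4 * d) = t * (16 * d) := by ring
    omega
  have hn2 : n < 4 * t * (4 * d) + 32 * d := by
    have : q * (16 * d) ≤ (t + 1) * (16 * d) := Nat.mul_le_mul_right _ (by omega)
    have e : 4 * t * (4 * d) = t * (16 * d) := by ring
    have e2 : (t + 1) * (16 * d) = t * (16 * d) + 16 * d := by ring
    omega
  have hB := card_BD (n := n) hd (show 3 ≤ t by omega) hn2
  refine ⟨GD n d t, BD n d t, fun e he => (mem_GD.1 he).1, not_ham_GD hd hnm ht h7 htn, ?_, ?_,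
    fun e he _ heB => ham_insert_GD hd hnm ht h7 htn e he heB⟩
  · rw [pow_one]
    exact (card_le_card (GD_sub_BD n d t)).trans hB
  · rw [pow_one]
    exact hB

end Pool.Agent.KS6_56.Snark
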